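import Pool.Agent.Work.MP_59f3ad_nt.US.A.Asm
import Pool.Agent.Work.MP_59f3ad_nt.UCF.I_Sm
import Pool.Agent.Work.MP_59f3ad_nt.UCF.I_We

/-!
The twisted bound without hypotheses: for every number field `L` there are `C` and `q₀` such that
`‖∑ χ(N a) N a^(-s)‖ ≤ C (1 + log p)` for `1 < s ≤ 2`, all primes `p ≥ q₀` and all nontrivial
characters `χ` modulo `p`.
-/

namespace Pool.Agent.Work.MP_59f3ad_nt.USA

theorem lb : US.H.LB := lb_of UCF.pr_Sm (UCF.pr_We UCF.pr_Wz)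

end Pool.Agent.Work.MP_59f3ad_nt.USA
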