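import Pool.Agent.Work.MP_59f3ad_nt.US.A.Stmts

/-!
Block US/A of MP_59f3ad_nt, item Bj: the nonzero elements of an ideal `J` are the products of a unit
and a chosen generator of `a J`, for `a` an ideal of the inverse class.
-/

open NumberField IsDedekindDomain

namespace Pool.Agent.Work.MP_59f3ad_nt.USA

noncomputable section

namespace IBj

variable (K : Type) [Field K] [NumberField K]

lemma cls_of_ne (I : Ideal (𝓞 K)) (h : I ≠ ⊥) :
    UCF.cls K I = ClassGroup.mk0 ⟨I, mem_nonZeroDivisors_iff_ne_zero.mpr h⟩ := by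
  unfold UCF.cls
  rw [dif_neg h]

lemma cls_mul (I J : Ideal (𝓞 K)) (hI : I ≠ ⊥) (hJ : J ≠ ⊥) :
    UCF.cls K (I * J) = UCF.cls K I * UCF.cls K J := by
  have hIJ : I * J ≠ ⊥ := mul_ne_zero hI hJ
  rw [cls_of_ne K _ hIJ, cls_of_ne K _ hI, cls_of_ne K _ hJ, ← map_mul]
  rfl

lemma cls_eq_one_iff (I : Ideal (𝓞 K)) (h : I ≠ ⊥) :
    UCF.cls K I = 1 ↔ ∃ x : 𝓞 K, x ≠ 0 ∧ I = Ideal.span {x} := by
  rw [cls_of_ne K _ h, ClassGroup.mk0_eq_one_iff]
  constructor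
  · rintro ⟨x, hx⟩
    refine ⟨x, ?_, hx⟩
    rintro rfl
    apply h
    have hx' : I = Submodule.span (𝓞 K) {(0 : 𝓞 K)} := hx
    rw [hx', Submodule.span_singleton_eq_bot]
  · rintro ⟨x, _, hx⟩
    exact ⟨x, hx⟩

end IBj

/-- ITEM Bj -/
theorem pr_Bj : StBj := by
  intro K _ _ J hJ
  have hgen : ∀ a : {a : Ideal (𝓞 K) // a ≠ ⊥ ∧ UCF.cls K a = (UCF.cls K J)⁻¹},
      ∃ x : 𝓞 K, x ≠ 0 ∧ a.1 * J = Ideal.span {x} := by
    rintro ⟨a, ha, hc⟩
    refine (IBj.cls_eq_one_iff K (a * J) (mul_ne_zero ha hJ)).1 ?_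
    rw [IBj.cls_mul K a J ha hJ, hc, inv_mul_cancel]
  choose g hg0 hg using hgen
  have hmem : ∀ a, g a ∈ J := fun a => by
    have h1 : g a ∈ a.1 * J := by
      rw [hg a]
      exact Ideal.mem_span_singleton_self _
    exact Ideal.mul_le_right h1
  let F : ({a : Ideal (𝓞 K) // a ≠ ⊥ ∧ UCF.cls K a = (UCF.cls K J)⁻¹} × (𝓞 K)ˣ) →
      {α : 𝓞 K // α ∈ J ∧ α ≠ 0} := fun p =>
    ⟨(p.2 : 𝓞 K) * g p.1, J.mul_mem_left _ (hmem p.1), mul_ne_zero p.2.ne_zero (hg0 p.1)⟩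
  have hspan : ∀ (a : {a : Ideal (𝓞 K) // a ≠ ⊥ ∧ UCF.cls K a = (UCF.cls K J)⁻¹}) (u : (𝓞 K)ˣ),
      Ideal.span {(u : 𝓞 K) * g a} = a.1 * J := fun a u => by
    rw [hg a, Ideal.span_singleton_mul_left_unit u.isUnit]
  have hF : Function.Bijective F := by
    constructor
    · rintro ⟨a, u⟩ ⟨b, v⟩ h
      have h1 : (u : 𝓞 K) * g a = (v : 𝓞 K) * g b := congrArg Subtype.val h
      have h2 : a.1 * J = b.1 * J := by
        rw [← hspan a u, ← hspan b v, h1]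
      have h3 : a = b := Subtype.ext (mul_right_cancel₀ hJ h2)
      subst h3
      have h4 : (u : 𝓞 K) = v := mul_right_cancel₀ (hg0 a) h1
      rw [Units.ext h4]
    · rintro ⟨α, hα, hα0⟩
      have h1 : J ∣ Ideal.span {α} := by
        rw [Ideal.dvd_iff_le, Ideal.span_singleton_le_iff_mem]
        exact hα
      obtain ⟨a, ha⟩ := h1
      have hαb : Ideal.span {α} ≠ (⊥ : Ideal (𝓞 K)) := by
        rw [Ne, Ideal.span_singleton_eq_bot]
        exact hα0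
      have ha0 : a ≠ ⊥ := by
        rintro rfl
        exact hαb (by rw [ha, Ideal.mul_bot])
      have hcl : UCF.cls K a = (UCF.cls K J)⁻¹ := by
        rw [eq_inv_iff_mul_eq_one, ← IBj.cls_mul K a J ha0 hJ, mul_comm, ← ha]
        exact (IBj.cls_eq_one_iff K _ hαb).2 ⟨α, hα0, rfl⟩
      have h2 : Ideal.span {g ⟨a, ha0, hcl⟩} = Ideal.span {α} := by
        rw [← hg ⟨a, ha0, hcl⟩, ha, mul_comm]
      obtain ⟨u, hu⟩ := Ideal.span_singleton_eq_span_singleton.1 h2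
      refine ⟨(⟨a, ha0, hcl⟩, u), Subtype.ext ?_⟩
      show (u : 𝓞 K) * g ⟨a, ha0, hcl⟩ = α
      rw [mul_comm]
      exact hu
  refine ⟨g, Equiv.ofBijective F hF, fun a u => rfl, fun a => ?_⟩
  rw [← Ideal.absNorm_span_singleton, ← hg a, map_mul]

end

end Pool.Agent.Work.MP_59f3ad_nt.USA
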