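import Pool.Agent.Work.MP_59f3ad_nt.US.A.Stmts

/-!
Item Fd of the block US/A of MP_59f3ad_nt: the difference bound for `FF`, and its size.
-/

set_option autoImplicit false

open NumberField IsDedekindDomain

namespace Pool.Agent.Work.MP_59f3ad_nt.USA

namespace IFd

section
variable (K : Type) [Field K] [NumberField K]

theorem wt_nonneg (x : 𝓞 K) : 0 ≤ UCF.wt K x :=
  Finset.prod_nonneg fun _ _ => le_max_left _ _

theorem wt_le_one (x : 𝓞 K) : UCF.wt K x ≤ 1 :=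
  Finset.prod_le_one (fun _ _ => le_max_left _ _) fun i _ =>
    max_le zero_le_one (by linarith [abs_nonneg (UCF.lc K x i)])

open Classical in
theorem sz_nonneg (x : 𝓞 K) : 0 ≤ UCF.sz K x :=
  norm_nonneg (mixedEmbedding K (x : K))

theorem sign_pow (z : ℤ) (e : ℕ) : |((Int.sign z : ℤ) : ℝ) ^ e| ≤ 1 := by
  rw [abs_pow]
  refine pow_le_one₀ (abs_nonneg _) ?_
  rcases lt_trichotomy z 0 with h | h | h
  · rw [Int.sign_eq_neg_one_of_neg h]
    simp
  · rw [h]
    simp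
  · rw [Int.sign_eq_one_of_pos h]
    simp

theorem rpow_bound {c s : ℝ} (hc : 0 < c) (hs : s ∈ Set.Icc (1 : ℝ) 2) :
    c ^ (-s) ≤ 1 + c ^ (-(2 : ℝ)) := by
  obtain ⟨h1, h2⟩ := hs
  rcases le_total 1 c with h | h
  · have h3 : c ^ (-s) ≤ 1 := Real.rpow_le_one_of_one_le_of_nonpos h (by linarith)
    have h4 : 0 ≤ c ^ (-(2 : ℝ)) := Real.rpow_nonneg hc.le _
    linarith
  · have h3 : c ^ (-s) ≤ c ^ (-(2 : ℝ)) :=
      Real.rpow_le_rpow_of_exponent_ge hc h (by linarith)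
    linarith

end

end IFd

open IFd

/-- Item Fd. -/
theorem pr_Fd : StFd := by
  intro hWz hWe hSz hSgn K _ _
  obtain ⟨c, hc, hz⟩ := hWz K
  obtain ⟨A1, C1, hA1, hC1, hwe⟩ := hWe K
  obtain ⟨A2, hA2, hsg⟩ := hSgn hWz K
  have hsz1 := (hSz K).1
  have hc2 : 0 ≤ c ^ (-(2 : ℝ)) := Real.rpow_nonneg hc.le _
  refine ⟨max A1 A2, C1 + (1 + c ^ (-(2 : ℝ))), lt_max_of_lt_left hA1, by linarith, ?_⟩
  intro e s hs
  refine ⟨?_, ?_⟩
  · intro x hx
    have hsx : 1 ≤ UCF.sz K x := hsz1 x hx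
    have hsx0 : 0 < UCF.sz K x := by linarith
    have hR : 0 ≤ UCF.sz K x ^ (-((Module.finrank ℚ K : ℝ) * s)) := Real.rpow_nonneg hsx0.le _
    by_cases hw : UCF.wt K x = 0
    · unfold FF
      rw [hw, zero_mul, mul_zero, abs_zero]
      exact mul_nonneg (by linarith) hR
    · have h1 := (hz x hx hw).2
      have hpos : 0 < c * UCF.sz K x ^ Module.finrank ℚ K := mul_pos hc (pow_pos hsx0 _)
      have h2 : UCF.nrm K x ^ (-s) ≤ (c * UCF.sz K x ^ Module.finrank ℚ K) ^ (-s) :=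
        Real.rpow_le_rpow_of_nonpos hpos h1 (by linarith [hs.1])
      have h3 : (c * UCF.sz K x ^ Module.finrank ℚ K) ^ (-s) =
          c ^ (-s) * UCF.sz K x ^ (-((Module.finrank ℚ K : ℝ) * s)) := by
        rw [Real.mul_rpow hc.le (pow_nonneg hsx0.le _), ← Real.rpow_natCast,
          ← Real.rpow_mul hsx0.le]
        congr 2
        ring
      have hn0 : 0 ≤ UCF.nrm K x ^ (-s) := Real.rpow_nonneg (hpos.le.trans h1) _
      unfold FF
      rw [abs_mul, abs_mul, abs_of_nonneg (wt_nonneg K x), abs_of_nonneg hn0]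
      calc |((Int.sign (Algebra.norm ℤ x) : ℤ) : ℝ) ^ e| * (UCF.wt K x * UCF.nrm K x ^ (-s))
          ≤ 1 * (1 * UCF.nrm K x ^ (-s)) := by
            refine mul_le_mul (sign_pow _ _) ?_ (mul_nonneg (wt_nonneg K x) hn0) zero_le_one
            exact mul_le_mul_of_nonneg_right (wt_le_one K x) hn0
        _ = UCF.nrm K x ^ (-s) := by rw [one_mul, one_mul]
        _ ≤ c ^ (-s) * UCF.sz K x ^ (-((Module.finrank ℚ K : ℝ) * s)) := h2.trans h3.le
        _ ≤ (C1 + (1 + c ^ (-(2 : ℝ)))) * UCF.sz K x ^ (-((Module.finrank ℚ K : ℝ) * s)) :=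
            mul_le_mul_of_nonneg_right (by linarith [rpow_bound hc hs]) hR
  · intro x y hx hy hxy
    have hsx : 1 ≤ UCF.sz K x := hsz1 x hx
    have hsx0 : 0 < UCF.sz K x := by linarith
    have hyx0 : 0 ≤ UCF.sz K (y - x) := sz_nonneg K _
    have hI : 0 ≤ (UCF.sz K x ^ (Module.finrank ℚ K + 1))⁻¹ := inv_nonneg.2 (pow_nonneg hsx0.le _)
    by_cases hw : UCF.wt K x = 0 ∧ UCF.wt K y = 0
    · unfold FF
      rw [hw.1, hw.2, zero_mul, mul_zero, zero_mul, mul_zero, sub_zero, abs_zero]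
      exact mul_nonneg (mul_nonneg (by linarith) hyx0) hI
    · have hw' : UCF.wt K x ≠ 0 ∨ UCF.wt K y ≠ 0 := by
        by_cases h : UCF.wt K x = 0
        · exact Or.inr fun h' => hw ⟨h, h'⟩
        · exact Or.inl h
      have h1 : A1 * UCF.sz K (y - x) ≤ UCF.sz K x :=
        (mul_le_mul_of_nonneg_right (le_max_left _ _) hyx0).trans hxy
      have h2 : A2 * UCF.sz K (y - x) ≤ UCF.sz K x :=
        (mul_le_mul_of_nonneg_right (le_max_right _ _) hyx0).trans hxy
      have h3 := hsg x y hx hy h2 hw'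
      have h4 := hwe s hs x y hx hy h1
      have h5 : UCF.sz K x ^ (-(Module.finrank ℚ K : ℝ) - 1) =
          (UCF.sz K x ^ (Module.finrank ℚ K + 1))⁻¹ := by
        rw [← Real.rpow_natCast, ← Real.rpow_neg hsx0.le]
        congr 1
        push_cast
        ring
      rw [h5] at h4
      unfold FF
      rw [h3, ← mul_sub, abs_mul]
      calc |((Int.sign (Algebra.norm ℤ y) : ℤ) : ℝ) ^ e| *
            |UCF.wt K y * UCF.nrm K y ^ (-s) - UCF.wt K x * UCF.nrm K x ^ (-s)|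
          ≤ 1 * |UCF.wt K y * UCF.nrm K y ^ (-s) - UCF.wt K x * UCF.nrm K x ^ (-s)| :=
            mul_le_mul_of_nonneg_right (sign_pow _ _) (abs_nonneg _)
        _ ≤ C1 * UCF.sz K (y - x) * (UCF.sz K x ^ (Module.finrank ℚ K + 1))⁻¹ := by
            rw [one_mul]
            exact h4
        _ ≤ (C1 + (1 + c ^ (-(2 : ℝ)))) * UCF.sz K (y - x) *
            (UCF.sz K x ^ (Module.finrank ℚ K + 1))⁻¹ := by
            refine mul_le_mul_of_nonneg_right ?_ hI
            exact mul_le_mul_of_nonneg_right (by linarith) hyx0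

end Pool.Agent.Work.MP_59f3ad_nt.USA
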