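import Pool.Agent.Work.MP_59f3ad_nt.US.A.Stmts

set_option autoImplicit false

/-!
MP_59f3ad_nt, block US/A, item Jb: a basis of an ideal, as vectors of the mixed space.
-/

open NumberField IsDedekindDomain

namespace Pool.Agent.Work.MP_59f3ad_nt.USA

namespace IJb

theorem el_eq {K : Type} [Field K] [NumberField K] {J : Ideal (𝓞 K)} {n : ℕ}
    (b : Module.Basis (Fin n) ℤ J) (m : Fin n → ℤ) : el b m = ((b.equivFun.symm m : J) : 𝓞 K) := by
  rw [Module.Basis.equivFun_symm_apply, el]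
  rw [AddSubmonoidClass.coe_finset_sum]
  refine Finset.sum_congr rfl (fun i _ => ?_)
  rw [← zsmul_eq_mul]
  rfl

theorem emb {K : Type} [Field K] [NumberField K] {J : Ideal (𝓞 K)} {n : ℕ}
    (b : Module.Basis (Fin n) ℤ J) (m : Fin n → ℤ) :
    mixedEmbedding K ((el b m : 𝓞 K) : K) =
      ∑ i, (m i : ℝ) • mixedEmbedding K (((b i : J) : 𝓞 K) : K) := by
  rw [el]
  have h1 : ((∑ i, (m i : 𝓞 K) * ((b i : J) : 𝓞 K) : 𝓞 K) : K) =
      ∑ i, m i • (((b i : J) : 𝓞 K) : K) := by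
    change algebraMap (𝓞 K) K (∑ i, (m i : 𝓞 K) * ((b i : J) : 𝓞 K)) =
      ∑ i, m i • algebraMap (𝓞 K) K ((b i : J) : 𝓞 K)
    rw [map_sum]
    refine Finset.sum_congr rfl (fun i _ => ?_)
    rw [map_mul, map_intCast, zsmul_eq_mul]
  rw [h1, map_sum]
  refine Finset.sum_congr rfl (fun i _ => ?_)
  rw [map_zsmul, Int.cast_smul_eq_zsmul]

theorem top_le {K : Type} [Field K] [NumberField K] {J : Ideal (𝓞 K)} (hJ : J ≠ ⊥) {n : ℕ}
    (b : Module.Basis (Fin n) ℤ J) :
    (⊤ : Submodule ℝ (mixedEmbedding.mixedSpace K)) ≤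
      Submodule.span ℝ (Set.range (fun i => mixedEmbedding K (((b i : J) : 𝓞 K) : K))) := by
  rw [← (mixedEmbedding.latticeBasis K).span_eq, Submodule.span_le]
  rintro _ ⟨i, rfl⟩
  rw [mixedEmbedding.latticeBasis_apply, integralBasis_apply]
  set S := Submodule.span ℝ (Set.range (fun i => mixedEmbedding K (((b i : J) : 𝓞 K) : K))) with hS
  have hmem : ∀ x ∈ J, mixedEmbedding K ((x : 𝓞 K) : K) ∈ S := by
    intro x hx
    have h1 : el b (b.equivFun ⟨x, hx⟩) = x := by
      rw [el_eq, LinearEquiv.symm_apply_apply]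
    rw [← h1, emb]
    exact Submodule.sum_mem _ (fun i _ => Submodule.smul_mem _ _ (Submodule.subset_span ⟨i, rfl⟩))
  set a : ℕ := Ideal.absNorm J with ha
  have ha0 : a ≠ 0 := by
    rw [ha, Ne, Ideal.absNorm_eq_zero_iff]
    exact hJ
  have haJ : (a : 𝓞 K) * RingOfIntegers.basis K i ∈ J := Ideal.mul_mem_right _ _ (Ideal.absNorm_mem J)
  have h2 := hmem _ haJ
  have h3 : mixedEmbedding K (((a : 𝓞 K) * RingOfIntegers.basis K i : 𝓞 K) : K) =
      (a : ℝ) • mixedEmbedding K ((RingOfIntegers.basis K i : 𝓞 K) : K) := by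
    change mixedEmbedding K (algebraMap (𝓞 K) K ((a : 𝓞 K) * RingOfIntegers.basis K i)) =
      (a : ℝ) • mixedEmbedding K (algebraMap (𝓞 K) K (RingOfIntegers.basis K i))
    rw [map_mul (algebraMap (𝓞 K) K), map_natCast, ← nsmul_eq_mul, map_nsmul, Nat.cast_smul_eq_nsmul]
  rw [h3] at h2
  have ha' : (a : ℝ) ≠ 0 := by exact_mod_cast ha0
  exact (Submodule.smul_mem_iff S ha').mp h2

end IJb

open IJb

theorem pr_Jb : StJb := by
  classical
  intro K _ _ J hJ
  let e : Module.Free.ChooseBasisIndex ℤ (𝓞 K) ≃ Fin (Module.finrank ℚ K) := by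
    refine Fintype.equivFinOfCardEq ?_
    rw [← Module.finrank_eq_card_chooseBasisIndex, RingOfIntegers.rank]
  let b : Module.Basis (Fin (Module.finrank ℚ K)) ℤ J :=
    Ideal.selfBasis ((RingOfIntegers.basis K).reindex e) J hJ
  refine ⟨mixedEmbedding.mixedSpace K, inferInstance, inferInstance, inferInstance, b,
    fun i => mixedEmbedding K (((b i : J) : 𝓞 K) : K), ?_, ?_, ?_, ?_, ?_⟩
  · refine linearIndependent_of_top_le_span_of_card_eq_finrank (top_le hJ b) ?_
    rw [Fintype.card_fin, mixedEmbedding.finrank]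
  · intro m
    rw [UCF.sz, emb, ph]
  · intro m
    rw [el_eq]
    exact Subtype.property _
  · intro m m'
    rw [el_eq, el_eq, el_eq, map_sub]
    rfl
  · intro x hx
    refine ⟨b.equivFun ⟨x, hx⟩, ?_, ?_⟩
    · show el b _ = x
      rw [el_eq, LinearEquiv.symm_apply_apply]
    · intro m hm
      replace hm : el b m = x := hm
      rw [el_eq] at hm
      have : b.equivFun.symm m = ⟨x, hx⟩ := Subtype.ext hm
      rw [← this, LinearEquiv.apply_symm_apply]

end Pool.Agent.Work.MP_59f3ad_nt.USA
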