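import Pool.Agent.Work.MP_59f3ad_nt.US.A.Stmts

set_option autoImplicit false

/-!
Block US/A of MP_59f3ad_nt, item LBa: the final bound, grouping the ideals by classes.
-/

open NumberField IsDedekindDomain
open scoped nonZeroDivisors

namespace Pool.Agent.Work.MP_59f3ad_nt.USA

namespace ILBa

variable (K : Type) [Field K] [NumberField K]

/-- every class is the inverse of the class of a nonzero ideal -/
theorem exists_ideal (A : ClassGroup (𝓞 K)) :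
    ∃ J : Ideal (𝓞 K), J ≠ ⊥ ∧ (UCF.cls K J)⁻¹ = A := by
  obtain ⟨I, hI⟩ := ClassGroup.mk0_surjective A⁻¹
  have h0 : (I : Ideal (𝓞 K)) ≠ ⊥ := mem_nonZeroDivisors_iff_ne_zero.1 I.2
  refine ⟨I, h0, ?_⟩
  have h1 : UCF.cls K (I : Ideal (𝓞 K)) = A⁻¹ := by
    unfold UCF.cls
    rw [dif_neg h0, ← hI]
  rw [h1, inv_inv]

/-- grouping by classes -/
theorem group (F : Ideal (𝓞 K) → ℂ)
    (hF : Summable (fun I : {I : Ideal (𝓞 K) // I ≠ ⊥} => F I.1)) :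
    ∑' I : {I : Ideal (𝓞 K) // I ≠ ⊥}, F I.1 =
      ∑ A : ClassGroup (𝓞 K), ∑' a : {a : Ideal (𝓞 K) // a ≠ ⊥ ∧ UCF.cls K a = A}, F a.1 := by
  let e := Equiv.sigmaFiberEquiv (fun I : {I : Ideal (𝓞 K) // I ≠ ⊥} => UCF.cls K I.1)
  have h1 : Summable (fun x => F (e x).1) :=
    (e.summable_iff (f := fun I : {I : Ideal (𝓞 K) // I ≠ ⊥} => F I.1)).2 hF
  rw [← e.tsum_eq (fun I : {I : Ideal (𝓞 K) // I ≠ ⊥} => F I.1), h1.tsum_sigma, tsum_fintype]
  refine Finset.sum_congr rfl fun A _ => ?_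
  exact (Equiv.subtypeSubtypeEquivSubtypeInter (fun I : Ideal (𝓞 K) => I ≠ ⊥)
    (fun I : Ideal (𝓞 K) => UCF.cls K I = A)).tsum_eq
      (fun a : {a : Ideal (𝓞 K) // a ≠ ⊥ ∧ UCF.cls K a = A} => F a.1)

end ILBa

/-- Item LBa. -/
theorem pr_LBa : StLBa := by
  classical
  intro hSi hNp hNz hNo hSx K _ _
  choose J hJ hJA using ILBa.exists_ideal K
  choose C hC hCb using fun A : ClassGroup (𝓞 K) => hSx K (J A) (hJ A)
  have hne : (Finset.univ : Finset (ClassGroup (𝓞 K))).Nonempty := ⟨1, Finset.mem_univ _⟩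
  refine ⟨∑ A, C A, Finset.sum_pos (fun A _ => hC A) hne,
    (NumberField.discr K).natAbs + 1 + ∑ A, Ideal.absNorm (J A), ?_⟩
  intro p hp hpq χ hχ s hs1 hs2
  have hd : ¬ ((p : ℤ) ∣ NumberField.discr K) := by
    intro h
    have h1 : p ∣ (NumberField.discr K).natAbs := Int.natCast_dvd.1 h
    have h2 : 0 < (NumberField.discr K).natAbs := Int.natAbs_pos.2 (NumberField.discr_ne_zero K)
    have h3 := Nat.le_of_dvd h2 h1
    omega
  have hN : ∀ A, ¬ p ∣ Ideal.absNorm (J A) := by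
    intro A h
    have h1 : Ideal.absNorm (J A) ≠ 0 := fun h0 => hJ A (Ideal.absNorm_eq_zero_iff.1 h0)
    have h2 := Nat.le_of_dvd (Nat.pos_of_ne_zero h1) h
    have h3 : Ideal.absNorm (J A) ≤ ∑ A, Ideal.absNorm (J A) :=
      Finset.single_le_sum (f := fun A => Ideal.absNorm (J A)) (fun _ _ => Nat.zero_le _)
        (Finset.mem_univ A)
    omega
  have hS : Summable (fun I : {I : Ideal (𝓞 K) // I ≠ ⊥} =>
      (χ ((Ideal.absNorm I.1 : ℕ) : ZMod p) * (((Ideal.absNorm I.1 : ℝ) ^ (-s) : ℝ) : ℂ))) := by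
    refine Summable.of_norm_bounded
      (g := fun I : {I : Ideal (𝓞 K) // I ≠ ⊥} => (Ideal.absNorm I.1 : ℝ) ^ (-s))
      ((hSi K s hs1).comp_injective Subtype.val_injective) fun I => ?_
    rw [norm_mul]
    have h1 : ‖χ ((Ideal.absNorm I.1 : ℕ) : ZMod p)‖ ≤ 1 := DirichletCharacter.norm_le_one χ _
    have h2 : ‖(((Ideal.absNorm I.1 : ℝ) ^ (-s) : ℝ) : ℂ)‖ = (Ideal.absNorm I.1 : ℝ) ^ (-s) := by
      rw [Complex.norm_real, Real.norm_of_nonneg (Real.rpow_nonneg (Nat.cast_nonneg _) _)]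
    rw [h2]
    calc _ ≤ 1 * (Ideal.absNorm I.1 : ℝ) ^ (-s) :=
          mul_le_mul_of_nonneg_right h1 (Real.rpow_nonneg (Nat.cast_nonneg _) _)
      _ = _ := one_mul _
  have hg := ILBa.group K (fun I => χ ((Ideal.absNorm I : ℕ) : ZMod p) *
    (((Ideal.absNorm I : ℝ) ^ (-s) : ℝ) : ℂ)) hS
  have hLI : US.H.LI K (US.H.chN K p χ) s = ∑' I : {I : Ideal (𝓞 K) // I ≠ ⊥},
      (χ ((Ideal.absNorm I.1 : ℕ) : ZMod p) * (((Ideal.absNorm I.1 : ℝ) ^ (-s) : ℝ) : ℂ)) := rfl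
  rw [hLI, hg, Finset.sum_mul]
  refine (norm_sum_le _ _).trans (Finset.sum_le_sum fun A _ => ?_)
  have hb := hCb A p χ s hp (hN A) hs1 hs2 (hNz hNp hNo K p hp hd χ hχ (J A))
  rw [hJA A] at hb
  exact hb

end Pool.Agent.Work.MP_59f3ad_nt.USA
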