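import Pool.Agent.Work.MP_59f3ad_nt.US.A.Stmts

set_option autoImplicit false

/-! Block US/A, item Ne (helper21): sums over a lattice of rank `n` of `‖z‖^(-n)` up to `Y`. -/

open NumberField IsDedekindDomain

namespace Pool.Agent.Work.MP_59f3ad_nt.USA

namespace INe

/-- one step of the telescoping bound -/
theorem step (x : ℝ) (hx : 0 < x) (k : ℕ) :
    ((k + 2 : ℕ) : ℝ) ^ (-1 - x) ≤
      1 / x * (((k + 1 : ℕ) : ℝ) ^ (-x) - ((k + 2 : ℕ) : ℝ) ^ (-x)) := by
  have hk : (0 : ℝ) ≤ (k : ℝ) := Nat.cast_nonneg k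
  set u : ℝ := ((k + 2 : ℕ) : ℝ) with hu
  set v : ℝ := ((k + 1 : ℕ) : ℝ) with hv
  have hv0 : 0 < v := by rw [hv]; push_cast; linarith
  have hu0 : 0 < u := by rw [hu]; push_cast; linarith
  have huv : v = u - 1 := by rw [hu, hv]; push_cast; ring
  have h1 : u ^ (-1 - x) = u ^ (-x) / u := by
    rw [show (-1 - x : ℝ) = -x - 1 by ring, Real.rpow_sub hu0, Real.rpow_one]
  have h2 : u ^ (-x) * (1 + x / u) ≤ v ^ (-x) := by
    have h3 : v ^ (-x) = u ^ (-x) * (v / u) ^ (-x) := by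
      rw [← Real.mul_rpow hu0.le (div_nonneg hv0.le hu0.le)]
      congr 1
      field_simp
    rw [h3]
    refine mul_le_mul_of_nonneg_left ?_ (Real.rpow_nonneg hu0.le _)
    have h4 : 0 < v / u := div_pos hv0 hu0
    rw [Real.rpow_def_of_pos h4]
    have h5 : Real.log (v / u) ≤ -(1 / u) := by
      refine (Real.log_le_sub_one_of_pos h4).trans (le_of_eq ?_)
      rw [huv]
      field_simp
      ring
    have h6 : x / u ≤ Real.log (v / u) * -x := by
      have h7 := mul_le_mul_of_nonneg_right h5 hx.le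
      have h8 : -(1 / u) * x = -(x / u) := by ring
      rw [h8] at h7
      linarith
    have h9 := Real.add_one_le_exp (Real.log (v / u) * -x)
    linarith
  rw [h1]
  have h3 : u ^ (-x) * (x / u) ≤ v ^ (-x) - u ^ (-x) := by
    rw [mul_add, mul_one] at h2
    linarith
  have h4 : u ^ (-x) / u = 1 / x * (u ^ (-x) * (x / u)) := by
    field_simp
  rw [h4]
  exact mul_le_mul_of_nonneg_left h3 (by positivity)

/-- the zeta function near 1 -/
theorem zb (x : ℝ) (hx : 0 < x) : ∑' k : ℕ, (k : ℝ) ^ (-1 - x) ≤ 1 + 1 / x := by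
  have h0 : ∀ N : ℕ, ∑ k ∈ Finset.range (N + 2), (k : ℝ) ^ (-1 - x) ≤
      1 + 1 / x * (1 - ((N + 1 : ℕ) : ℝ) ^ (-x)) := by
    intro N
    induction N with
    | zero =>
      rw [Finset.sum_range_succ, Finset.sum_range_one]
      rw [Nat.cast_zero, Real.zero_rpow (by linarith)]
      simp
    | succ N ih =>
      rw [Finset.sum_range_succ]
      have h1 := step x hx N
      have h2 : ((N + 1 + 1 : ℕ) : ℝ) = ((N + 2 : ℕ) : ℝ) := by push_cast; ring
      rw [h2]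
      have h3 : 1 + 1 / x * (1 - ((N + 2 : ℕ) : ℝ) ^ (-x)) =
          1 + 1 / x * (1 - ((N + 1 : ℕ) : ℝ) ^ (-x)) +
            1 / x * (((N + 1 : ℕ) : ℝ) ^ (-x) - ((N + 2 : ℕ) : ℝ) ^ (-x)) := by ring
      rw [h3]
      refine add_le_add ih ?_
      have h4 : ((N + 1 + 1 : ℕ) : ℝ) = ((N + 2 : ℕ) : ℝ) := by push_cast; ring
      convert h1 using 2
  refine Real.tsum_le_of_sum_range_le (fun k => Real.rpow_nonneg (Nat.cast_nonneg k) _) fun N => ?_
  have h1 : ∑ k ∈ Finset.range N, (k : ℝ) ^ (-1 - x) ≤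
      ∑ k ∈ Finset.range (N + 2), (k : ℝ) ^ (-1 - x) :=
    Finset.sum_le_sum_of_subset_of_nonneg (Finset.range_mono (by omega))
      fun k _ _ => Real.rpow_nonneg (Nat.cast_nonneg k) _
  refine (h1.trans (h0 N)).trans ?_
  have h2 : 0 ≤ ((N + 1 : ℕ) : ℝ) ^ (-x) := Real.rpow_nonneg (Nat.cast_nonneg _) _
  have h3 : 1 / x * (1 - ((N + 1 : ℕ) : ℝ) ^ (-x)) ≤ 1 / x * 1 :=
    mul_le_mul_of_nonneg_left (by linarith) (by positivity)
  linarith

end INe

theorem pr_Ne : StNe := by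
  intro E _ _ _ L _ n hn hn1
  obtain ⟨A, hA, H⟩ := ZLattice.exists_finsetSum_norm_rpow_le_tsum L
  set M : ℝ := max 1 (A ^ (-(2 * (n : ℝ)))) with hM
  have hM1 : 1 ≤ M := le_max_left _ _
  have hn1' : (1 : ℝ) ≤ n := by exact_mod_cast hn1
  refine ⟨Real.exp n * M * 2, by positivity, fun Y T hY hT => ?_⟩
  have hlY : 0 ≤ Real.log Y := Real.log_nonneg hY
  set ε : ℝ := 1 / (1 + Real.log Y) with hε
  have hε0 : 0 < ε := by positivity
  have hε1 : ε ≤ 1 := by
    rw [hε, div_le_one (by linarith)]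
    linarith
  have hεl : ε * Real.log Y ≤ 1 := by
    rw [hε, one_div, inv_mul_le_iff₀ (by linarith)]
    linarith
  set r : ℝ := -(n : ℝ) - n * ε with hr
  have hnε : 0 < n * ε := mul_pos (by linarith) hε0
  have hr1 : r < (-Module.finrank ℤ L : ℝ) := by
    rw [hn, hr]
    linarith
  have h1 := H r hr1 T
  have h2 : (Module.finrank ℤ L : ℝ) - 1 + r = -1 - n * ε := by
    rw [hn, hr]
    ring
  rw [h2] at h1
  have h3 := INe.zb (n * ε) hnε
  have h4 : A ^ r ≤ M := by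
    rcases le_or_gt 1 A with h | h
    · refine (Real.rpow_le_one_of_one_le_of_nonpos h ?_).trans hM1
      rw [hr]
      linarith
    · refine (Real.rpow_le_rpow_of_exponent_ge hA h.le ?_).trans (le_max_right _ _)
      rw [hr]
      nlinarith
  have h5 : ∑ z ∈ T, ‖z‖ ^ r ≤ M * (2 * (1 + Real.log Y)) := by
    refine h1.trans ?_
    have h6 : (0 : ℝ) ≤ ∑' k : ℕ, (k : ℝ) ^ (-1 - n * ε) :=
      tsum_nonneg fun k => Real.rpow_nonneg (Nat.cast_nonneg k) _
    have h7 : 1 + 1 / (n * ε) ≤ 2 * (1 + Real.log Y) := by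
      have h8 : 1 / (n * ε) ≤ 1 / ε := by
        refine one_div_le_one_div_of_le hε0 ?_
        exact le_mul_of_one_le_left hε0.le hn1'
      have h9 : 1 / ε = 1 + Real.log Y := by
        rw [hε, one_div_one_div]
      rw [h9] at h8
      linarith
    exact mul_le_mul h4 (h3.trans h7) h6 (by linarith)
  have h6 : ∀ z ∈ T, (‖(z : E)‖ ^ n)⁻¹ ≤ Real.exp n * ‖z‖ ^ r := by
    intro z hz
    obtain ⟨hz1, hz2⟩ := hT z hz
    have hz0 : 0 < ‖(z : E)‖ := by linarith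
    have e1 : (‖(z : E)‖ ^ n)⁻¹ = ‖(z : E)‖ ^ r * ‖(z : E)‖ ^ ((n : ℝ) * ε) := by
      rw [← Real.rpow_add hz0, hr, sub_add_cancel, Real.rpow_neg hz0.le, Real.rpow_natCast]
    have e2 : ‖(z : E)‖ ^ ((n : ℝ) * ε) ≤ Real.exp n := by
      refine (Real.rpow_le_rpow hz0.le hz2 hnε.le).trans ?_
      rw [Real.rpow_def_of_pos (by linarith)]
      refine Real.exp_le_exp.2 ?_
      have : Real.log Y * (n * ε) = n * (ε * Real.log Y) := by ring
      rw [this]
      exact mul_le_of_le_one_right (by linarith) hεl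
    have e3 : ‖z‖ ^ r = ‖(z : E)‖ ^ r := rfl
    rw [e1, e3, mul_comm (Real.exp n)]
    exact mul_le_mul_of_nonneg_left e2 (Real.rpow_nonneg hz0.le _)
  calc ∑ z ∈ T, (‖(z : E)‖ ^ n)⁻¹ ≤ ∑ z ∈ T, Real.exp n * ‖z‖ ^ r := Finset.sum_le_sum h6
    _ = Real.exp n * ∑ z ∈ T, ‖z‖ ^ r := by rw [Finset.mul_sum]
    _ ≤ Real.exp n * (M * (2 * (1 + Real.log Y))) :=
        mul_le_mul_of_nonneg_left h5 (Real.exp_pos _).le
    _ = _ := by ring

end Pool.Agent.Work.MP_59f3ad_nt.USA
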