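import Pool.Agent.Work.MP_59f3ad_nt.US.A.Defs

/-!
Statements of the block US/A (captain helper45) of MP_59f3ad_nt. The docstring of each statement is
its complete proof. `n = [K : ℚ]`; `sz x` is the maximum of the absolute values of `x` at the infinite
places, so `sz (x + y) ≤ sz x + sz y`, `sz (q x) = q sz x`, and `sz x ≥ 1` for `x ≠ 0`. The hypotheses
`UCF.StSm`, `UCF.StWz`, `UCF.StWu`, `UCF.StWe`, `UCF.StSi` are items of helper23's library UCF.
-/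

open NumberField IsDedekindDomain

namespace Pool.Agent.Work.MP_59f3ad_nt.USA

/-- (Sz) Elementary facts on the size.

Proof. `mixedEmbedding` is a ring homomorphism and `sz` is the sup norm
(`mixedEmbedding.norm_eq_sup'_normAtPlace`). For `x ≠ 0`, `1 ≤ |N x| = ∏ w, |x|_w ^ (mult w) ≤
(sz x)^n`. -/
def StSz : Prop := ∀ (K : Type) [Field K] [NumberField K],
  (∀ x : 𝓞 K, x ≠ 0 → 1 ≤ UCF.sz K x) ∧ (∀ x y : 𝓞 K, UCF.sz K (x + y) ≤ UCF.sz K x + UCF.sz K y) ∧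
  (∀ (m : ℤ) (x : 𝓞 K), UCF.sz K ((m : 𝓞 K) * x) = |(m : ℝ)| * UCF.sz K x) ∧
  (∀ x : 𝓞 K, UCF.nrm K x = ((Algebra.norm ℤ x).natAbs : ℝ)) ∧
  (∀ (x : 𝓞 K) (w : InfinitePlace K), w (x : K) ≤ UCF.sz K x)

/-- (Sgn) Two close integers, one of which has a nonzero weight, have norms of the same sign.

Proof. Let `c` be the constant of `UCF.StWz`, `A = 2/c + 2`. Let `z` be the one of `x`, `y` with
nonzero weight, `t` the other one. `sz z ≥ sz x - sz (y - x) ≥ (1 - 1/A) sz x ≥ sz x / 2`, so at every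
infinite place `|z|_w ≥ c sz z ≥ c sz x / 2 > sz (y - x) ≥ |t - z|_w` (`A > 2/c`; if `y = x`
nothing to prove). So `t/z = 1 + δ` with `|δ|_w < 1` for all `w`. The norm of `1 + δ` from `K` to `ℚ`
is the product of `1 + φ(δ)` over the embeddings `φ : K → ℂ` (`Algebra.norm_eq_prod_embeddings`): the
real ones give positive factors, the others come in conjugate pairs with product
`|1 + φ(δ)|² > 0`. (Equivalently: move `δ` to `0`; or: real places only matter for the sign.) So the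
norm of `t/z` is positive and the norms of `t` and `z` have the same sign. -/
def StSgn : Prop := UCF.StWz.{0} → ∀ (K : Type) [Field K] [NumberField K], ∃ A : ℝ, 0 < A ∧
  ∀ x y : 𝓞 K, x ≠ 0 → y ≠ 0 → A * UCF.sz K (y - x) ≤ UCF.sz K x →
    (UCF.wt K x ≠ 0 ∨ UCF.wt K y ≠ 0) →
    Int.sign (Algebra.norm ℤ x) = Int.sign (Algebra.norm ℤ y)

/-- (Fd) The difference bound for `FF`, and its size.

Proof. Difference: if both weights vanish, both values are `0`. Otherwise the signs agree by (Sgn)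
(take the larger `A`), and `UCF.StWe` applies; `|sign^e| ≤ 1`. Size: `wt` is a product of numbers in
`[0, 1]`; if it is not `0` then `nrm x ≥ c (sz x)^n` by `UCF.StWz`, so
`nrm^(-s) ≤ c^(-s) (sz x)^(-n s) ≤ max(1, c^(-2)) (sz x)^(-n s)`. -/
def StFd : Prop := UCF.StWz.{0} → UCF.StWe.{0} → StSz → StSgn →
  ∀ (K : Type) [Field K] [NumberField K], ∃ A B : ℝ, 0 < A ∧ 0 < B ∧
  ∀ (e : ℕ), ∀ s ∈ Set.Icc (1 : ℝ) 2,
    (∀ x : 𝓞 K, x ≠ 0 → |FF K e s x| ≤ B * UCF.sz K x ^ (-((Module.finrank ℚ K : ℝ) * s))) ∧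
    ∀ x y : 𝓞 K, x ≠ 0 → y ≠ 0 → A * UCF.sz K (y - x) ≤ UCF.sz K x →
      |FF K e s y - FF K e s x| ≤
        B * UCF.sz K (y - x) * (UCF.sz K x ^ (Module.finrank ℚ K + 1))⁻¹

/-- (Ne) Sums over a lattice of rank `n` of `‖z‖^(-n)` up to `Y`.

Proof. `ZLattice.exists_finsetSum_norm_rpow_le_tsum`: there is `A > 0` with
`∑_{z ∈ T} ‖z‖^r ≤ A^r ∑' k, k^(n - 1 + r)` for all `r < -n` and all finite `T`. With `r = -n s`,
`1 < s ≤ 2`: `A^r ≤ max(1, A^(-2n))` and `∑_{k ≥ 1} k^(-1 - n(s-1)) ≤ 1 + 1/(n (s - 1)) ≤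
1 + 1/(s - 1)` (comparison with the integral). With `ε = 1/(1 + log Y) ≤ 1` and `s = 1 + ε` one has
for `1 ≤ ‖z‖ ≤ Y`: `‖z‖^(-n) = ‖z‖^(-n s) ‖z‖^(n ε) ≤ ‖z‖^(-n s) exp(n ε log Y) ≤ e^n ‖z‖^(-n s)`,
so the sum is at most `e^n C (1 + 1/ε) ≤ 2 e^n C (1 + log Y)`. -/
def StNe : Prop := ∀ (E : Type) [NormedAddCommGroup E] [NormedSpace ℝ E] [FiniteDimensional ℝ E]
  (L : Submodule ℤ E) [DiscreteTopology L] (n : ℕ), Module.finrank ℤ L = n → 1 ≤ n →
    ∃ C : ℝ, 0 < C ∧ ∀ (Y : ℝ) (T : Finset L), 1 ≤ Y →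
      (∀ z ∈ T, 1 ≤ ‖(z : E)‖ ∧ ‖(z : E)‖ ≤ Y) →
      ∑ z ∈ T, (‖(z : E)‖ ^ n)⁻¹ ≤ C * (1 + Real.log Y)

/-- (Pd) Division with remainder: a sum over `ℤ^n` is a double sum over the quotient `l` and the
remainder `k`.

Proof. `m ↦ (m / q, m % q)` in each coordinate is a bijection from `ℤ^n` to `ℤ^n × (Fin n → Fin q)`
(`Int.divModEquiv`); `HasSum`/`Summable.tsum_prod'` for an absolutely summable family over a product
with a finite factor. -/
def StPd : Prop := ∀ (n q : ℕ) (F : (Fin n → ℤ) → ℂ), 1 ≤ q → Summable (fun m => ‖F m‖) →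
  Summable (fun l : Fin n → ℤ => ‖∑ k : Fin n → Fin q, F (fun i => (q : ℤ) * l i + ((k i : ℕ) : ℤ))‖) ∧
  (∑' m, F m) =
    ∑' l : Fin n → ℤ, ∑ k : Fin n → Fin q, F (fun i => (q : ℤ) * l i + ((k i : ℕ) : ℤ))

/-- (Pa) The pairing lemma: a periodic function with sum zero over a period against a regular
function. Write `φ m = ph v m = ∑ m_i v_i`.

Proof. The span of the `v_i` over `ℤ` is a discrete lattice of rank `n`, and `φ` is a bijection onto
it; let `D = ∑ ‖v_i‖`, `R = A D + D + 1`. Let `F m = g m h m` for `m ≠ 0` and `F 0 = 0`, an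
absolutely summable family. By (Pd) `∑ F = ∑_l ∑_k F (q l + k)`. Here `‖φ k‖ ≤ D q`.
If `‖φ l‖ ≥ R`: put `m = q l`, `m' = q l + k`; `‖φ m‖ = q ‖φ l‖`, `A ‖φ k‖ ≤ A D q ≤ ‖φ m‖`, and
`‖φ m'‖ ≥ q R - D q > 0`, so `m' ≠ 0`; by periodicity and the sum over a period,
`∑_k F(q l + k) = ∑_k (g m' - g m) h k`, of absolute value at most
`q^n B (D q) (q ‖φ l‖)^(-n-1) = B D ‖φ l‖^(-n-1)`, and `∑_{l ≠ 0} ‖φ l‖^(-n-1)` converges
(`ZLattice.summable_norm_pow_inv` or `summable_norm_rpow`). The terms with `‖φ l‖ < R` (finitely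
many `l`) are `F m` with `0 < ‖φ m‖ ≤ (R + D) q`, and their absolute values sum to at most
`∑_{1 ≤ ‖φ m‖ ≤ (R + D) q} B ‖φ m‖^(-n) ≤ B C' (1 + log((R + D) q)) ≤ C'' (1 + log q)` by (Ne). -/
def StPa : Prop := StNe → StPd → ∀ (E : Type) [NormedAddCommGroup E] [NormedSpace ℝ E]
  [FiniteDimensional ℝ E] (n : ℕ) (v : Fin n → E), 1 ≤ n → LinearIndependent ℝ v →
    (∀ m : Fin n → ℤ, m ≠ 0 → 1 ≤ ‖ph v m‖) → ∀ A B : ℝ, 0 < A → 0 < B →
    ∃ C : ℝ, 0 < C ∧ ∀ (q : ℕ) (g : (Fin n → ℤ) → ℝ) (h : (Fin n → ℤ) → ℂ), 1 ≤ q →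
      (∀ m, m ≠ 0 → |g m| ≤ B * (‖ph v m‖ ^ n)⁻¹) →
      (∀ m m', m ≠ 0 → m' ≠ 0 → A * ‖ph v (m' - m)‖ ≤ ‖ph v m‖ →
        |g m' - g m| ≤ B * ‖ph v (m' - m)‖ * (‖ph v m‖ ^ (n + 1))⁻¹) →
      (∀ m, ‖h m‖ ≤ 1) → (∀ m k : Fin n → ℤ, h (fun i => m i + (q : ℤ) * k i) = h m) →
      (∑ k : Fin n → Fin q, h (fun i => ((k i : ℕ) : ℤ))) = 0 →
      Summable (fun m : {m : Fin n → ℤ // m ≠ 0} => |g m.1|) →
      ‖∑' m : {m : Fin n → ℤ // m ≠ 0}, ((g m.1 : ℝ) : ℂ) * h m.1‖ ≤ C * (1 + Real.log q)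

/-- (Jb) A basis of an ideal, as vectors of the mixed space.

Proof. `J ≠ ⊥` is free of rank `n` over `ℤ` (`Ideal.finrank_eq_finrank`, or the Smith normal form
`Ideal.smithNormalForm`), so it has a basis `b` indexed by `Fin n`. The images `v i` of the `b i` in
the mixed space `E` are linearly independent over `ℝ`: `J` contains `m 𝓞 K` for a positive integer
`m`, so the real span of the `v i` contains the real span of the integer lattice, which is everything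
(`mixedEmbedding.latticeBasis`, `mixedEmbedding.span_latticeBasis`), and `dim E = n`
(`mixedEmbedding.finrank`; `linearIndependent_of_top_le_span_of_card_eq_finrank`). Linearity of
`mixedEmbedding` gives `sz (el b m) = ‖ph v m‖`, and `m ↦ el b m` is a bijection from `ℤ^n` to
`J` (`Basis.equivFun`). -/
def StJb : Prop := ∀ (K : Type) [Field K] [NumberField K] (J : Ideal (𝓞 K)), J ≠ ⊥ →
  ∃ (E : Type) (_ : NormedAddCommGroup E) (_ : NormedSpace ℝ E) (_ : FiniteDimensional ℝ E)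
    (b : Module.Basis (Fin (Module.finrank ℚ K)) ℤ J) (v : Fin (Module.finrank ℚ K) → E),
    LinearIndependent ℝ v ∧ (∀ m, UCF.sz K (el b m) = ‖ph v m‖) ∧
    (∀ m, el b m ∈ J) ∧ (∀ m m', el b (m' - m) = el b m' - el b m) ∧
    ∀ x ∈ J, ∃! m, el b m = x

/-- (Pj) The pairing lemma for an ideal.

Proof. Take `b`, `v` from (Jb). `el b` is a bijection from the nonzero `m` to the nonzero elements of
`J`. Apply (Pa) with `g m = FF K e s (el b m)` ((Fd); `(sz x)^(-n s) ≤ (sz x)^(-n)` as `sz x ≥ 1`),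
`h m = h (el b m)`; summability from (Fd) and `UCF.StSm` with `t = n s`. -/
def StPj : Prop := UCF.StSm.{0} → StSz → StPa → StNe → StPd → StJb →
  (∀ (K : Type) [Field K] [NumberField K], ∃ A B : ℝ, 0 < A ∧ 0 < B ∧
    ∀ (e : ℕ), ∀ s ∈ Set.Icc (1 : ℝ) 2,
      (∀ x : 𝓞 K, x ≠ 0 → |FF K e s x| ≤ B * UCF.sz K x ^ (-((Module.finrank ℚ K : ℝ) * s))) ∧
      ∀ x y : 𝓞 K, x ≠ 0 → y ≠ 0 → A * UCF.sz K (y - x) ≤ UCF.sz K x →
        |FF K e s y - FF K e s x| ≤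
          B * UCF.sz K (y - x) * (UCF.sz K x ^ (Module.finrank ℚ K + 1))⁻¹) →
  ∀ (K : Type) [Field K] [NumberField K] (J : Ideal (𝓞 K)), J ≠ ⊥ →
  ∃ C : ℝ, 0 < C ∧ ∀ (q e : ℕ) (s : ℝ) (h : 𝓞 K → ℂ), 1 ≤ q → 1 < s → s ≤ 2 →
    (∀ α, ‖h α‖ ≤ 1) → (∀ α ∈ J, ∀ γ ∈ J, h (α + (q : 𝓞 K) * γ) = h α) →
    (∀ b : Module.Basis (Fin (Module.finrank ℚ K)) ℤ J,
      (∑ k : Fin (Module.finrank ℚ K) → Fin q, h (el b (fun i => ((k i : ℕ) : ℤ)))) = 0) →
    Summable (fun α : {α : 𝓞 K // α ∈ J ∧ α ≠ 0} => |FF K e s α.1|) ∧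
    ‖∑' α : {α : 𝓞 K // α ∈ J ∧ α ≠ 0}, ((FF K e s α.1 : ℝ) : ℂ) * h α.1‖
      ≤ C * (1 + Real.log q)

/-- (Np) The norm modulo `q` depends only on the class modulo `q`.

Proof. `Algebra.norm ℤ x` is the determinant of the matrix of multiplication by `x` in a `ℤ`-basis
(`Algebra.norm_eq_matrix_det`, `Algebra.leftMulMatrix`); the matrix of `a + q g` is congruent to the
one of `a` modulo `q`, and the determinant commutes with the reduction `ℤ → ZMod q`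
(`RingHom.map_det`). -/
def StNp : Prop := ∀ (K : Type) [Field K] [NumberField K] (q : ℕ) (a g : 𝓞 K),
  ((Algebra.norm ℤ (a + (q : 𝓞 K) * g) : ℤ) : ZMod q) = ((Algebra.norm ℤ a : ℤ) : ZMod q)

/-- (No) The norm is onto `(ZMod q)ˣ` for the primes `q` which do not divide the discriminant.

Proof. `q` is unramified (`NumberField.not_dvd_discr_iff_...` in
`Mathlib/NumberTheory/NumberField/Discriminant/Different.lean` or similar): `(q) = P P'` with `P` a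
prime above `q` and `P'` an ideal not divisible by `P` (`P' = ⊤` allowed). By the Chinese remainder
theorem choose `u ≡ x mod P`, `u ≡ 1 mod P'`, where `x` in the finite field `k = 𝓞 K / P` has
norm `a` to `ZMod q` (`FiniteField.norm_surjective`, file FieldTheory/Finite/GaloisField). The norm of
`u` modulo `q` is the determinant of multiplication by `u` on the `ZMod q` vector space `𝓞 K / q`
(reduce the matrix), which is the product `𝓞 K / P × 𝓞 K / P'` (CRT isomorphism of `ZMod q`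
algebras) on which `u` acts by `(x, 1)`: the determinant is `N(x) * 1 = a` (`LinearMap.det_prodMap`, or
`LinearMap.det_eq_det_mul_det` for the submodule `P'/q ≅ 𝓞 K / P`). -/
def StNo : Prop := ∀ (K : Type) [Field K] [NumberField K] (q : ℕ), q.Prime →
  ¬ ((q : ℤ) ∣ NumberField.discr K) → ∀ a : (ZMod q)ˣ, ∃ u : 𝓞 K,
    ((Algebra.norm ℤ u : ℤ) : ZMod q) = (a : ZMod q)

/-- (Nz) The sum over `J / q J` of a nontrivial character of the norm vanishes.

Proof. Choose `a` with `χ a ≠ 1` (`χ ≠ 1`) and `u` with `N u ≡ a` by (No). The `k` in `[0, q)^n`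
parametrize representatives of `J / q J`. Multiplication by `u` induces a bijection of the finite set
`J / q J`: injective, because `u u' = N u` for an integer `u'` (`Algebra.dvd_norm`), so `u β ∈ q J`
implies `(N u) β ∈ q J`, and `N u` is prime to `q` and `q β ∈ q J`, so `β ∈ q J`. The function
`β ↦ χ (N β)` on `J / q J` is well defined by (Np), and its sum `S` satisfies
`S = ∑ χ(N(u β)) = χ(a) S`. So `S = 0`. -/
def StNz : Prop := StNp → StNo → ∀ (K : Type) [Field K] [NumberField K] (q : ℕ), q.Prime →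
  ¬ ((q : ℤ) ∣ NumberField.discr K) → ∀ χ : DirichletCharacter ℂ q, χ ≠ 1 →
    ∀ (J : Ideal (𝓞 K)) (b : Module.Basis (Fin (Module.finrank ℚ K)) ℤ J),
      (∑ k : Fin (Module.finrank ℚ K) → Fin q,
        χ ((Algebra.norm ℤ (el b (fun i => ((k i : ℕ) : ℤ))) : ℤ) : ZMod q)) = 0

/-- (Bj) The nonzero elements of an ideal `J` are the products of a unit and a chosen generator of
`a J`, for `a` an ideal of the inverse class.

Proof. For `a` of class `(cls J)⁻¹` the ideal `a J` is principal (`ClassGroup.mk0_eq_one_iff`,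
`map_mul`); let `g a` be a generator; `g a ∈ J` (as `a J ≤ J`), `g a ≠ 0`, and
`|N (g a)| = N(a) N(J)` (`Ideal.absNorm_span_singleton`, multiplicativity). Conversely for
`α ∈ J`, `α ≠ 0`, `J` divides `(α)`, `(α) = J a` for a unique nonzero ideal `a`, of class
`(cls J)⁻¹`, and `α`, `g a` generate the same ideal, so `α = u g a` for a unique unit `u`. -/
def StBj : Prop := ∀ (K : Type) [Field K] [NumberField K] (J : Ideal (𝓞 K)), J ≠ ⊥ →
    ∃ (g : {a : Ideal (𝓞 K) // a ≠ ⊥ ∧ UCF.cls K a = (UCF.cls K J)⁻¹} → 𝓞 K)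
      (e : ({a : Ideal (𝓞 K) // a ≠ ⊥ ∧ UCF.cls K a = (UCF.cls K J)⁻¹} × (𝓞 K)ˣ) ≃
        {α : 𝓞 K // α ∈ J ∧ α ≠ 0}),
      (∀ a u, ((e (a, u)).1 : 𝓞 K) = (u : 𝓞 K) * g a) ∧
      ∀ a, (Algebra.norm ℤ (g a)).natAbs = Ideal.absNorm a.1 * Ideal.absNorm J

/-- (Un) Unfolding: a sum over the ideals of a class is a weighted sum over the elements of an ideal
of the inverse class.

Proof. Transport by the bijection of (Bj): at `α = u g(a)`, `|N α| / N J = N a` (`|N u| = 1`), so the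
family becomes `(a, u) ↦ wt K (u * g a) * f (N a)`. It is absolutely summable
(`summable_prod_of_nonneg`: the weights are `≥ 0`, and for fixed `a` the sum over `u` of the absolute
values is `torsionOrder K * ‖f (N a)‖` by `UCF.StWu`, as `g a ≠ 0`), and its sum is
`∑ a, torsionOrder K * f (N a)` (`HasSum.prod_fiberwise`, uniqueness). -/
def StUn : Prop := UCF.StWu.{0} → StBj → ∀ (K : Type) [Field K] [NumberField K]
  (J : Ideal (𝓞 K)), J ≠ ⊥ → ∀ f : ℕ → ℂ,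
    Summable (fun a : {a : Ideal (𝓞 K) // a ≠ ⊥ ∧ UCF.cls K a = (UCF.cls K J)⁻¹} =>
      ‖f (Ideal.absNorm a.1)‖) →
    HasSum (fun α : {α : 𝓞 K // α ∈ J ∧ α ≠ 0} => ((UCF.wt K α.1 : ℝ) : ℂ) *
        f ((Algebra.norm ℤ α.1).natAbs / Ideal.absNorm J))
      ((Units.torsionOrder K : ℂ) *
        ∑' a : {a : Ideal (𝓞 K) // a ≠ ⊥ ∧ UCF.cls K a = (UCF.cls K J)⁻¹}, f (Ideal.absNorm a.1))

/-- The conclusion of (Pj), for one ideal: used as a hypothesis below. -/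
def PJ (K : Type) [Field K] [NumberField K] (J : Ideal (𝓞 K)) : Prop :=
  ∃ C : ℝ, 0 < C ∧ ∀ (q e : ℕ) (s : ℝ) (h : 𝓞 K → ℂ), 1 ≤ q → 1 < s → s ≤ 2 →
    (∀ α, ‖h α‖ ≤ 1) → (∀ α ∈ J, ∀ γ ∈ J, h (α + (q : 𝓞 K) * γ) = h α) →
    (∀ b : Module.Basis (Fin (Module.finrank ℚ K)) ℤ J,
      (∑ k : Fin (Module.finrank ℚ K) → Fin q, h (el b (fun i => ((k i : ℕ) : ℤ)))) = 0) →
    Summable (fun α : {α : 𝓞 K // α ∈ J ∧ α ≠ 0} => |FF K e s α.1|) ∧
    ‖∑' α : {α : 𝓞 K // α ∈ J ∧ α ≠ 0}, ((FF K e s α.1 : ℝ) : ℂ) * h α.1‖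
      ≤ C * (1 + Real.log q)

/-- (Sx) The sum over the ideals of one class.

Proof. Let `e = 0` if `χ(-1) = 1` and `e = 1` if `χ(-1) = -1` (`χ(-1)^2 = 1`). The unfolding
(hypothesis `hU`) with `f k = χ(k) k^(-s)` (summable by `UCF.StSi`) gives
`(torsionOrder) S = ∑_{α ∈ J, ≠ 0} wt(α) f(|N α|/N J)`. For such `α`, `N J` divides `|N α|` and
`χ(|N α|/N J) = χ(|N α|) χ(N J)⁻¹` (`q` does not divide `N J`), and
`χ(|N α|) = (sign N α)^e χ(N α)`. So the sum is `(N J)^s χ(N J)⁻¹ ∑_α FF K e s α χ(N α)`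
(`nrm α = |N α|` by (Sz)), and `PJ K J` with `h α = χ(N α)` ((Np) for the periodicity, `hZ` for the
sum over a period) bounds it by `(N J)^2 C (1 + log q)`; `torsionOrder ≥ 1`. -/
def StSx : Prop := UCF.StSi.{0} → StSz → StNp →
  ∀ (K : Type) [Field K] [NumberField K] (J : Ideal (𝓞 K)), J ≠ ⊥ → PJ K J →
  (∀ f : ℕ → ℂ,
    Summable (fun a : {a : Ideal (𝓞 K) // a ≠ ⊥ ∧ UCF.cls K a = (UCF.cls K J)⁻¹} =>
      ‖f (Ideal.absNorm a.1)‖) →
    HasSum (fun α : {α : 𝓞 K // α ∈ J ∧ α ≠ 0} => ((UCF.wt K α.1 : ℝ) : ℂ) *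
        f ((Algebra.norm ℤ α.1).natAbs / Ideal.absNorm J))
      ((Units.torsionOrder K : ℂ) *
        ∑' a : {a : Ideal (𝓞 K) // a ≠ ⊥ ∧ UCF.cls K a = (UCF.cls K J)⁻¹},
          f (Ideal.absNorm a.1))) →
  ∃ C : ℝ, 0 < C ∧ ∀ (q : ℕ) (χ : DirichletCharacter ℂ q) (s : ℝ), q.Prime →
    ¬ q ∣ Ideal.absNorm J → 1 < s → s ≤ 2 →
    (∀ b : Module.Basis (Fin (Module.finrank ℚ K)) ℤ J,
      (∑ k : Fin (Module.finrank ℚ K) → Fin q,
        χ ((Algebra.norm ℤ (el b (fun i => ((k i : ℕ) : ℤ))) : ℤ) : ZMod q)) = 0) →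
    ‖∑' a : {a : Ideal (𝓞 K) // a ≠ ⊥ ∧ UCF.cls K a = (UCF.cls K J)⁻¹},
      χ ((Ideal.absNorm a.1 : ℕ) : ZMod q) * (((Ideal.absNorm a.1 : ℝ) ^ (-s) : ℝ) : ℂ)‖
      ≤ C * (1 + Real.log q)

/-- (LBa) The final bound (`US.H.LB`): group the ideals by classes.

Proof. For each of the finitely many classes `A` choose an ideal `J_A ≠ ⊥` with
`cls J_A = A⁻¹`; `(Sx)` for `J_A` gives `C_A`; let `C = ∑ C_A` and `q₀` larger than `|discr K|` and all
`N J_A`, so that a prime `q ≥ q₀` divides none of them; `(Nz)` gives the sum over a period. The series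
`LI` converges absolutely (`UCF.StSi`) and is the sum over `A` of the sums over
`{a | a ≠ ⊥ ∧ cls a = A}` (`Summable.tsum_sigma`, or a finite partition of the index type). -/
def StLBa : Prop := UCF.StSi.{0} → StNp → StNz → StNo →
  (∀ (K : Type) [Field K] [NumberField K] (J : Ideal (𝓞 K)), J ≠ ⊥ →
    ∃ C : ℝ, 0 < C ∧ ∀ (q : ℕ) (χ : DirichletCharacter ℂ q) (s : ℝ), q.Prime →
      ¬ q ∣ Ideal.absNorm J → 1 < s → s ≤ 2 →
      (∀ b : Module.Basis (Fin (Module.finrank ℚ K)) ℤ J,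
        (∑ k : Fin (Module.finrank ℚ K) → Fin q,
          χ ((Algebra.norm ℤ (el b (fun i => ((k i : ℕ) : ℤ))) : ℤ) : ZMod q)) = 0) →
      ‖∑' a : {a : Ideal (𝓞 K) // a ≠ ⊥ ∧ UCF.cls K a = (UCF.cls K J)⁻¹},
        χ ((Ideal.absNorm a.1 : ℕ) : ZMod q) * (((Ideal.absNorm a.1 : ℝ) ^ (-s) : ℝ) : ℂ)‖
        ≤ C * (1 + Real.log q)) →
  US.H.LB

end Pool.Agent.Work.MP_59f3ad_nt.USA
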