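import Mathlib
import Pool.Agent.Work.MP_59f3ad_nt.US.A.Stmts

open NumberField IsDedekindDomain
open scoped TensorProduct

namespace Pool.Agent.Work.MP_59f3ad_nt.USA

namespace INo

theorem norm_pair (F B B' : Type*) [Field F] [Ring B] [Ring B'] [Algebra F B]
    [Algebra F B'] [Module.Finite F B] [Module.Finite F B'] (x : B) (y : B') :
    Algebra.norm F ((x, y) : B × B') = Algebra.norm F x * Algebra.norm F y := by
  rw [Algebra.norm_apply, Algebra.norm_apply, Algebra.norm_apply]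
  have h : (LinearMap.mul F (B × B')) (x, y) =
      LinearMap.prodMap (LinearMap.mul F B x) (LinearMap.mul F B' y) := by
    ext z <;> simp
  have h2 : (Algebra.lmul F (B × B')) (x, y) =
      LinearMap.prodMap (Algebra.lmul F B x) (Algebra.lmul F B' y) := by
    ext z <;> simp
  rw [h2]
  exact LinearMap.det_prodMap _ _

theorem norm_tensor (F R : Type) [Field F] [CommRing R] [Module.Free ℤ R] [Module.Finite ℤ R]
    (u : R) : Algebra.norm F ((1 : F) ⊗ₜ[ℤ] u : F ⊗[ℤ] R) = ((Algebra.norm ℤ u : ℤ) : F) := by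
  rw [Algebra.norm_apply, Algebra.norm_apply]
  have h : Algebra.lmul F (F ⊗[ℤ] R) ((1 : F) ⊗ₜ[ℤ] u) = (Algebra.lmul ℤ R u).baseChange F := by
    ext z
    simp
  rw [h, LinearMap.det_baseChange]
  simp

/-- A ring in which `q = 0` is an algebra over `ZMod q`. -/
noncomputable def hom (q : ℕ) (S : Type) [CommRing S] (h : (q : S) = 0) : ZMod q →+* S :=
  (Ideal.Quotient.lift (Ideal.span {(q : ℤ)}) (Int.castRingHom S) (by
    intro a ha
    rw [Ideal.mem_span_singleton] at ha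
    obtain ⟨b, rfl⟩ := ha
    simp [h])).comp (Int.quotientSpanNatEquivZMod q).symm.toRingHom

theorem split (K : Type) [Field K] [NumberField K] (q : ℕ) (hq : q.Prime)
    (hd : ¬ ((q : ℤ) ∣ NumberField.discr K)) :
    ∃ P P' : Ideal (𝓞 K), P.IsMaximal ∧ IsCoprime P P' ∧
      Ideal.span {(q : 𝓞 K)} = P * P' := by
  have hpZ : Prime (q : ℤ) := Nat.prime_iff_prime_int.mp hq
  have hmap : (Ideal.span {(q : ℤ)}).map (algebraMap ℤ (𝓞 K)) = Ideal.span {(q : 𝓞 K)} := by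
    rw [Ideal.map_span, Set.image_singleton]
    simp
  have hmaxZ : (Ideal.span {(q : ℤ)}).IsMaximal :=
    PrincipalIdealRing.isMaximal_of_irreducible hpZ.irreducible
  obtain ⟨P, hPm, hPo⟩ := Ideal.exists_maximal_ideal_liesOver_of_isIntegral (S := 𝓞 K)
    (Ideal.span {(q : ℤ)})
  have hun := (NumberField.not_dvd_discr_iff_forall_liesOver K (𝓞 K) hpZ).mp hd P hPm hPo
  have hle : Ideal.span {(q : 𝓞 K)} ≤ P := by
    rw [← hmap, Ideal.map_le_iff_le_comap]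
    exact hPo.over.le
  have hq0 : Ideal.span {(q : 𝓞 K)} ≠ ⊥ := by
    rw [Ne, Ideal.span_singleton_eq_bot]
    exact_mod_cast hq.ne_zero
  have hP0 : P ≠ ⊥ := by
    rintro rfl
    exact hq0 (le_bot_iff.mp hle)
  have hu : P.under ℤ = Ideal.span {(q : ℤ)} := hPo.over.symm
  have he : Ideal.ramificationIdx' (Ideal.span {(q : ℤ)}) P = 1 := by
    have h1 : P.ramificationIdx ℤ = 1 := Ideal.ramificationIdx_eq_one P ℤ
    rw [Ideal.ramificationIdx'_eq_ramificationIdx (Ideal.span {(q : ℤ)}) P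
      (by rw [Ne, Ideal.span_singleton_eq_bot]; exact_mod_cast hq.ne_zero), h1]
  have h2 : ¬ (Ideal.span {(q : 𝓞 K)} ≤ P ^ 2) := by
    intro h
    exact ((Ideal.ramificationIdx'_ne_one_iff (by rw [hmap]; exact hle)).mpr
      (by rw [hmap]; exact h)) he
  obtain ⟨P', hP'⟩ := Ideal.dvd_iff_le.mpr hle
  refine ⟨P, P', hPm, ?_, hP'⟩
  rw [Ideal.isCoprime_iff_sup_eq]
  by_contra hne
  apply h2
  have h3 : P' ≤ P := by
    by_contra hn
    apply hne
    exact hPm.1.2 (P ⊔ P') (lt_of_le_of_ne le_sup_left (by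
      intro h
      apply hn
      rw [h]
      exact le_sup_right))
  rw [hP', pow_two]
  exact Ideal.mul_mono_right h3

end INo

open INo in
theorem pr_No : StNo := by
  intro K _ _ q hq hd a
  haveI : Fact q.Prime := ⟨hq⟩
  obtain ⟨P, P', hPm, hcop, hmul⟩ := split K q hq hd
  have hqP : (q : 𝓞 K) ∈ P := by
    have : (q : 𝓞 K) ∈ Ideal.span {(q : 𝓞 K)} := Ideal.mem_span_singleton_self _
    rw [hmul] at this
    exact (Ideal.mul_le_left (I := P) (J := P')) this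
  have hqP' : (q : 𝓞 K) ∈ P' := by
    have : (q : 𝓞 K) ∈ Ideal.span {(q : 𝓞 K)} := Ideal.mem_span_singleton_self _
    rw [hmul] at this
    exact (Ideal.mul_le_right (I := P) (J := P')) this
  have hq0 : Ideal.span {(q : 𝓞 K)} ≠ ⊥ := by
    rw [Ne, Ideal.span_singleton_eq_bot]
    exact_mod_cast hq.ne_zero
  have hP0 : P ≠ ⊥ := by
    rintro rfl
    rw [Ideal.bot_mul] at hmul
    exact hq0 hmul
  have hP'0 : P' ≠ ⊥ := by
    rintro rfl
    rw [Ideal.mul_bot] at hmul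
    exact hq0 hmul
  letI : Field (𝓞 K ⧸ P) := Ideal.Quotient.field P
  have e1 : ((q : ℕ) : 𝓞 K ⧸ P) = 0 := by
    have := Ideal.Quotient.eq_zero_iff_mem.mpr hqP
    simpa using this
  have e2 : ((q : ℕ) : 𝓞 K ⧸ P') = 0 := by
    have := Ideal.Quotient.eq_zero_iff_mem.mpr hqP'
    simpa using this
  letI : Algebra (ZMod q) (𝓞 K ⧸ P) := (hom q (𝓞 K ⧸ P) e1).toAlgebra
  letI : Algebra (ZMod q) (𝓞 K ⧸ P') := (hom q (𝓞 K ⧸ P') e2).toAlgebra
  haveI : Finite (𝓞 K ⧸ P) := Ideal.finiteQuotientOfFreeOfNeBot P hP0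
  haveI : Finite (𝓞 K ⧸ P') := Ideal.finiteQuotientOfFreeOfNeBot P' hP'0
  obtain ⟨x, hx⟩ := FiniteField.norm_surjective (ZMod q) (𝓞 K ⧸ P) (a : ZMod q)
  let φ₀ : 𝓞 K →+* (𝓞 K ⧸ P) × (𝓞 K ⧸ P') := (Ideal.Quotient.mk P).prod (Ideal.Quotient.mk P')
  let φ : (ZMod q) ⊗[ℤ] (𝓞 K) →ₐ[ZMod q] (𝓞 K ⧸ P) × (𝓞 K ⧸ P') :=
    Algebra.TensorProduct.lift (Algebra.ofId (ZMod q) _) φ₀.toIntAlgHom
      (fun _ _ => Commute.all _ _)
  have hφ : ∀ u : 𝓞 K, φ ((1 : ZMod q) ⊗ₜ[ℤ] u) = (Ideal.Quotient.mk P u, Ideal.Quotient.mk P' u) := by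
    intro u
    simp [φ, φ₀]
  have hsurj₀ : ∀ y : (𝓞 K ⧸ P) × (𝓞 K ⧸ P'), ∃ u : 𝓞 K,
      (Ideal.Quotient.mk P u, Ideal.Quotient.mk P' u) = y := by
    rintro ⟨y1, y2⟩
    obtain ⟨z, hz⟩ := (Ideal.quotientMulEquivQuotientProd P P' hcop).surjective (y1, y2)
    obtain ⟨u, rfl⟩ := Ideal.Quotient.mk_surjective z
    refine ⟨u, ?_⟩
    rw [← hz]
    ext
    · rw [Ideal.quotientMulEquivQuotientProd_fst]
      simp
    · rw [Ideal.quotientMulEquivQuotientProd_snd]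
      simp
  have hsurj : Function.Surjective φ := by
    intro y
    obtain ⟨u, hu⟩ := hsurj₀ y
    exact ⟨_, (hφ u).trans hu⟩
  have hcard : Nat.card ((ZMod q) ⊗[ℤ] (𝓞 K)) ≤ Nat.card ((𝓞 K ⧸ P) × (𝓞 K ⧸ P')) := by
    rw [Nat.card_prod]
    have h1 : Nat.card (𝓞 K ⧸ P) * Nat.card (𝓞 K ⧸ P') = q ^ Module.finrank ℤ (𝓞 K) := by
      have h2 := congrArg Ideal.absNorm hmul
      rw [map_mul] at h2
      rw [Ideal.absNorm_apply P, Ideal.absNorm_apply P', Submodule.cardQuot_apply,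
        Submodule.cardQuot_apply] at h2
      rw [← h2, Ideal.absNorm_span_singleton]
      have h3 : Algebra.norm ℤ (q : 𝓞 K) = (q : ℤ) ^ Module.finrank ℤ (𝓞 K) := by
        have := Algebra.norm_algebraMap (R := ℤ) (S := 𝓞 K) (q : ℤ)
        simpa using this
      rw [h3]
      simp [Int.natAbs_pow]
    rw [h1]
    have h4 : Module.finrank (ZMod q) ((ZMod q) ⊗[ℤ] (𝓞 K)) = Module.finrank ℤ (𝓞 K) :=
      Module.finrank_baseChange
    rw [Module.natCard_eq_pow_finrank (K := ZMod q), h4, Nat.card_zmod]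
  haveI : Finite ((ZMod q) ⊗[ℤ] (𝓞 K)) := Module.finite_of_finite (ZMod q)
  have hbij : Function.Bijective φ := by
    refine ⟨?_, hsurj⟩
    exact (Function.Surjective.bijective_of_nat_card_le hsurj hcard).1
  let ψ : (ZMod q) ⊗[ℤ] (𝓞 K) ≃ₐ[ZMod q] (𝓞 K ⧸ P) × (𝓞 K ⧸ P') := AlgEquiv.ofBijective φ hbij
  obtain ⟨u, hu⟩ := hsurj₀ (x, 1)
  refine ⟨u, ?_⟩
  have h5 := norm_tensor (ZMod q) (𝓞 K) u
  rw [← h5]
  have h6 : Algebra.norm (ZMod q) ((1 : ZMod q) ⊗ₜ[ℤ] u : (ZMod q) ⊗[ℤ] (𝓞 K)) =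
      Algebra.norm (ZMod q) (ψ ((1 : ZMod q) ⊗ₜ[ℤ] u)) :=
    (Algebra.norm_eq_of_algEquiv ψ _).symm
  rw [h6]
  have h7 : ψ ((1 : ZMod q) ⊗ₜ[ℤ] u) = (x, 1) := (hφ u).trans hu
  rw [h7, norm_pair, hx, map_one, mul_one]

end Pool.Agent.Work.MP_59f3ad_nt.USA
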