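import Pool.Agent.Work.MP_59f3ad_nt.US.A.Stmts

/-!
Item (Np) of the block US/A of MP_59f3ad_nt (helper90): the norm modulo `q` depends only on the class
modulo `q`.
-/

open NumberField

namespace Pool.Agent.Work.MP_59f3ad_nt.USA

theorem pr_Np : StNp := by
  intro K _ _ q a g
  classical
  have hb := NumberField.RingOfIntegers.basis K
  rw [Algebra.norm_eq_matrix_det hb, Algebra.norm_eq_matrix_det hb]
  have h1 : ∀ M : Matrix (Module.Free.ChooseBasisIndex ℤ (𝓞 K)) (Module.Free.ChooseBasisIndex ℤ (𝓞 K)) ℤ,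
      ((M.det : ℤ) : ZMod q) = ((Int.castRingHom (ZMod q)).mapMatrix M).det := by
    intro M
    rw [← RingHom.map_det]
    rfl
  rw [h1, h1]
  congr 1
  rw [map_add, map_mul, map_natCast, map_add, map_mul, map_natCast]
  have h2 : ((q : ℕ) : Matrix (Module.Free.ChooseBasisIndex ℤ (𝓞 K))
      (Module.Free.ChooseBasisIndex ℤ (𝓞 K)) (ZMod q)) = 0 := by
    rw [← Matrix.diagonal_natCast]
    ext i j
    simp [Matrix.diagonal]
  rw [h2, zero_mul, add_zero]

end Pool.Agent.Work.MP_59f3ad_nt.USA
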