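import Pool.Agent.Work.MP_59f3ad_nt.US.A.Stmts

/-!
MP_59f3ad_nt, block US/A: item Nz (the sum over `J / q J` of a nontrivial character of the norm),
helper54.
-/

set_option autoImplicit false

open NumberField IsDedekindDomain

namespace Pool.Agent.Work.MP_59f3ad_nt.USA

namespace INz

variable {K : Type} [Field K] [NumberField K] {J : Ideal (𝓞 K)} {n : ℕ}

lemma el_eq (b : Module.Basis (Fin n) ℤ J) (m : Fin n → ℤ) :
    el b m = ((∑ i, m i • b i : J) : 𝓞 K) := by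
  unfold el
  rw [AddSubmonoidClass.coe_finsetSum]
  refine Finset.sum_congr rfl fun i _ => ?_
  rw [← zsmul_eq_mul]
  rfl

lemma el_mem (b : Module.Basis (Fin n) ℤ J) (m : Fin n → ℤ) : el b m ∈ J := by
  rw [el_eq]
  exact Submodule.coe_mem _

lemma el_add (b : Module.Basis (Fin n) ℤ J) (m m' : Fin n → ℤ) :
    el b (fun i => m i + m' i) = el b m + el b m' := by
  unfold el
  rw [← Finset.sum_add_distrib]
  refine Finset.sum_congr rfl fun i _ => ?_
  push_cast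
  ring

lemma el_sub (b : Module.Basis (Fin n) ℤ J) (m m' : Fin n → ℤ) :
    el b (fun i => m i - m' i) = el b m - el b m' := by
  unfold el
  rw [← Finset.sum_sub_distrib]
  refine Finset.sum_congr rfl fun i _ => ?_
  push_cast
  ring

lemma el_mul (b : Module.Basis (Fin n) ℤ J) (c : ℤ) (m : Fin n → ℤ) :
    el b (fun i => c * m i) = (c : 𝓞 K) * el b m := by
  unfold el
  rw [Finset.mul_sum]
  refine Finset.sum_congr rfl fun i _ => ?_
  push_cast
  ring

lemma el_repr (b : Module.Basis (Fin n) ℤ J) (x : 𝓞 K) (hx : x ∈ J) :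
    el b (fun i => b.repr ⟨x, hx⟩ i) = x := by
  rw [el_eq, b.sum_repr]

lemma el_inj (b : Module.Basis (Fin n) ℤ J) {m m' : Fin n → ℤ} (h : el b m = el b m') :
    m = m' := by
  rw [el_eq, el_eq] at h
  have h1 : (∑ i, m i • b i : J) = ∑ i, m' i • b i := Subtype.ext h
  funext i
  have h2 := congrArg (fun y => b.repr y i) h1
  simp only [b.repr_sum_self] at h2
  exact h2

/-- The map on the representatives given by the multiplication by `u`. -/
noncomputable def T (b : Module.Basis (Fin n) ℤ J) {q : ℕ} (hq : 0 < q) (u : 𝓞 K)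
    (k : Fin n → Fin q) : Fin n → Fin q := fun i =>
  ⟨(b.repr ⟨u * el b (fun i => ((k i : ℕ) : ℤ)), J.mul_mem_left u (el_mem b _)⟩ i % (q : ℤ)).toNat, by
    have h1 := Int.emod_nonneg (b.repr ⟨u * el b (fun i => ((k i : ℕ) : ℤ)),
      J.mul_mem_left u (el_mem b _)⟩ i) (by exact_mod_cast hq.ne' : (q : ℤ) ≠ 0)
    have h2 := Int.emod_lt_of_pos (b.repr ⟨u * el b (fun i => ((k i : ℕ) : ℤ)),
      J.mul_mem_left u (el_mem b _)⟩ i) (by exact_mod_cast hq : (0 : ℤ) < q)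
    omega⟩

lemma T_spec (b : Module.Basis (Fin n) ℤ J) {q : ℕ} (hq : 0 < q) (u : 𝓞 K)
    (k : Fin n → Fin q) : ∃ g ∈ J, u * el b (fun i => ((k i : ℕ) : ℤ)) =
      el b (fun i => ((T b hq u k i : ℕ) : ℤ)) + (q : 𝓞 K) * g := by
  set c : Fin n → ℤ := fun i => b.repr ⟨u * el b (fun i => ((k i : ℕ) : ℤ)),
    J.mul_mem_left u (el_mem b _)⟩ i with hc
  refine ⟨el b (fun i => c i / (q : ℤ)), el_mem b _, ?_⟩
  have h1 : el b c = u * el b (fun i => ((k i : ℕ) : ℤ)) := el_repr b _ _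
  have h2 : ∀ i, ((T b hq u k i : ℕ) : ℤ) = c i % (q : ℤ) := by
    intro i
    unfold T
    simp only
    rw [Int.toNat_of_nonneg (Int.emod_nonneg _ (by exact_mod_cast hq.ne'))]
  have h3 := el_mul b (q : ℤ) (fun i => c i / (q : ℤ))
  rw [Int.cast_natCast] at h3
  rw [← h3, ← el_add, ← h1]
  congr 1
  funext i
  rw [h2 i, Int.emod_add_mul_ediv]

lemma T_inj (b : Module.Basis (Fin n) ℤ J) {q : ℕ} (hq : 0 < q) (u : 𝓞 K)
    (hu : Nat.Coprime (Algebra.norm ℤ u).natAbs q) : Function.Injective (T b hq u) := by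
  intro k l hkl
  obtain ⟨g, hg, h1⟩ := T_spec b hq u k
  obtain ⟨g', hg', h2⟩ := T_spec b hq u l
  rw [hkl] at h1
  -- the element of J
  set δ : 𝓞 K := el b (fun i => ((k i : ℕ) : ℤ)) - el b (fun i => ((l i : ℕ) : ℤ)) with hδ
  have hδJ : δ ∈ J := J.sub_mem (el_mem b _) (el_mem b _)
  have h3 : u * δ = (q : 𝓞 K) * (g - g') := by
    rw [hδ, mul_sub, h1, h2]
    ring
  have h4 : u ∣ (((Algebra.norm ℤ u).natAbs : ℕ) : 𝓞 K) := by
    have := Ideal.absNorm_mem (Ideal.span {u})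
    rw [Ideal.absNorm_span_singleton, Ideal.mem_span_singleton] at this
    exact this
  obtain ⟨u', hu'⟩ := h4
  obtain ⟨x, y, hxy⟩ := (Nat.isCoprime_iff_coprime).2 hu
  have h5 : δ = (q : 𝓞 K) * ((x : 𝓞 K) * u' * (g - g') + (y : 𝓞 K) * δ) := by
    have h6 : ((x * ((Algebra.norm ℤ u).natAbs : ℤ) + y * (q : ℤ) : ℤ) : 𝓞 K) = 1 := by
      rw [hxy, Int.cast_one]
    rw [Int.cast_add, Int.cast_mul, Int.cast_mul, Int.cast_natCast, Int.cast_natCast] at h6
    calc δ = 1 * δ := (one_mul δ).symm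
      _ = ((x : 𝓞 K) * (((Algebra.norm ℤ u).natAbs : ℕ) : 𝓞 K) + (y : 𝓞 K) * (q : 𝓞 K)) * δ := by
          rw [h6]
      _ = (x : 𝓞 K) * u' * (u * δ) + (q : 𝓞 K) * ((y : 𝓞 K) * δ) := by
          rw [hu']
          ring
      _ = _ := by
          rw [h3]
          ring
  set γ : 𝓞 K := (x : 𝓞 K) * u' * (g - g') + (y : 𝓞 K) * δ with hγ
  have hγJ : γ ∈ J := J.add_mem (J.mul_mem_left _ (J.sub_mem hg hg')) (J.mul_mem_left _ hδJ)
  have h7 : el b (fun i => ((k i : ℕ) : ℤ) - ((l i : ℕ) : ℤ)) =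
      el b (fun i => (q : ℤ) * b.repr ⟨γ, hγJ⟩ i) := by
    rw [el_sub, el_mul, el_repr, Int.cast_natCast]
    exact h5
  have h8 := el_inj b h7
  funext i
  have h9 : ((k i : ℕ) : ℤ) - ((l i : ℕ) : ℤ) = (q : ℤ) * b.repr ⟨γ, hγJ⟩ i := congrFun h8 i
  have hk := (k i).2
  have hl := (l i).2
  apply Fin.ext
  have h10 : ((k i : ℕ) : ℤ) ≡ ((l i : ℕ) : ℤ) [ZMOD (q : ℤ)] := by
    apply (Int.modEq_iff_dvd).2
    refine ⟨-b.repr ⟨γ, hγJ⟩ i, ?_⟩
    linarith
  have h11 : (k i : ℕ) ≡ (l i : ℕ) [MOD q] := (Int.natCast_modEq_iff).1 h10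
  exact Nat.ModEq.eq_of_lt_of_lt h11 hk hl

end INz

open INz in
theorem pr_Nz : StNz := by
  intro hNp hNo K _ _ q hq hd χ hχ J b
  have : Fact q.Prime := ⟨hq⟩
  obtain ⟨a, ha⟩ := (MulChar.ne_one_iff).1 hχ
  obtain ⟨u, hu⟩ := hNo K q hq hd a
  have hcop : Nat.Coprime (Algebra.norm ℤ u).natAbs q := by
    rw [Nat.coprime_comm, hq.coprime_iff_not_dvd]
    intro h
    have h1 : (q : ℤ) ∣ Algebra.norm ℤ u := Int.natCast_dvd.2 h
    have h2 : ((Algebra.norm ℤ u : ℤ) : ZMod q) = 0 := (ZMod.intCast_zmod_eq_zero_iff_dvd _ q).2 h1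
    rw [hu] at h2
    exact a.ne_zero h2
  set f : (Fin (Module.finrank ℚ K) → Fin q) → ℂ := fun k =>
    χ ((Algebra.norm ℤ (el b (fun i => ((k i : ℕ) : ℤ))) : ℤ) : ZMod q) with hf
  have hbij : Function.Bijective (T b hq.pos u) :=
    Finite.injective_iff_bijective.1 (T_inj b hq.pos u hcop)
  have h1 : ∀ k, f (T b hq.pos u k) = χ a * f k := by
    intro k
    obtain ⟨g, _, hg⟩ := T_spec b hq.pos u k
    have h2 := hNp K q (el b (fun i => ((T b hq.pos u k i : ℕ) : ℤ))) g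
    rw [← hg, map_mul, Int.cast_mul, hu] at h2
    rw [hf]
    simp only
    rw [← h2, map_mul]
  have h2 : ∑ k, f (T b hq.pos u k) = ∑ k, f k := hbij.sum_comp f
  have h3 : χ a * ∑ k, f k = ∑ k, f k := by
    rw [Finset.mul_sum, ← h2]
    exact Finset.sum_congr rfl fun k _ => (h1 k).symm
  have h4 : (χ a - 1) * ∑ k, f k = 0 := by
    rw [sub_mul, h3, one_mul, sub_self]
  rcases mul_eq_zero.1 h4 with h5 | h5
  · exact absurd (sub_eq_zero.1 h5) ha
  · exact h5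

end Pool.Agent.Work.MP_59f3ad_nt.USA
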