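import Pool.Agent.Work.MP_59f3ad_nt.US.A.Stmts

/-!
# Block US/A, item Pd: division with remainder
-/

set_option autoImplicit false

open NumberField IsDedekindDomain

namespace Pool.Agent.Work.MP_59f3ad_nt.USA

namespace IPd

/-- division with remainder in every coordinate -/
def eqv (n q : ℕ) [NeZero q] : (Fin n → ℤ) × (Fin n → Fin q) ≃ (Fin n → ℤ) :=
  (Equiv.arrowProdEquivProdArrow (Fin n) (fun _ => ℤ) (fun _ => Fin q)).symm.trans
    (Equiv.piCongrRight fun _ => (Int.divModEquiv q).symm)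

theorem eqv_apply (n q : ℕ) [NeZero q] (z : (Fin n → ℤ) × (Fin n → Fin q)) :
    eqv n q z = fun i => (q : ℤ) * z.1 i + ((z.2 i : ℕ) : ℤ) := by
  funext i
  show z.1 i * (q : ℤ) + ((z.2 i : ℕ) : ℤ) = _
  rw [mul_comm]

end IPd

/-- Item Pd. -/
theorem pr_Pd : StPd := by
  intro n q F hq hF
  have : NeZero q := ⟨by omega⟩
  have h1 : Summable (fun z : (Fin n → ℤ) × (Fin n → Fin q) => ‖F (IPd.eqv n q z)‖) :=
    (Equiv.summable_iff (IPd.eqv n q)).2 hF
  have h2 : Summable (fun z : (Fin n → ℤ) × (Fin n → Fin q) => F (IPd.eqv n q z)) := h1.of_norm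
  have h3 := h1.prod
  simp only [IPd.eqv_apply, tsum_fintype] at h3
  refine ⟨Summable.of_nonneg_of_le (fun _ => norm_nonneg _) (fun l => norm_sum_le _ _) h3, ?_⟩
  rw [← (IPd.eqv n q).tsum_eq F, h2.tsum_prod]
  simp only [IPd.eqv_apply, tsum_fintype]

end Pool.Agent.Work.MP_59f3ad_nt.USA
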