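import Pool.Agent.Work.MP_59f3ad_nt.US.A.Stmts

/-!
Item Pj of the block US/A: the pairing lemma for an ideal.
-/

open NumberField IsDedekindDomain

namespace Pool.Agent.Work.MP_59f3ad_nt.USA

theorem pr_Pj : StPj := by
  intro hSm hSz hPa hNe hPd hJb hFd K _ _ J hJ
  obtain ⟨E, i1, i2, i3, b, v, hli, hsz, hmem, hsub, huniq⟩ := hJb K J hJ
  obtain ⟨A, B, hA, hB, hF⟩ := hFd K
  obtain ⟨hz1, -, -, -, -⟩ := hSz K
  have hn : 1 ≤ Module.finrank ℚ K := Module.finrank_pos
  have h00 : el b 0 = 0 := by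
    have := hsub 0 0
    simpa using this
  have hne : ∀ m, m ≠ 0 → el b m ≠ 0 := by
    intro m hm h
    obtain ⟨m0, -, hu⟩ := huniq 0 J.zero_mem
    exact hm ((hu m h).trans (hu 0 h00).symm)
  have hlow : ∀ m : Fin (Module.finrank ℚ K) → ℤ, m ≠ 0 → 1 ≤ ‖ph v m‖ := by
    intro m hm
    rw [← hsz]
    exact hz1 _ (hne m hm)
  obtain ⟨C, hC, hP⟩ := hPa hNe hPd E (Module.finrank ℚ K) v hn hli hlow A B hA hB
  refine ⟨C, hC, fun q e s h hq hs1 hs2 hh hper hsum => ?_⟩
  have hs : s ∈ Set.Icc (1 : ℝ) 2 := ⟨hs1.le, hs2⟩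
  obtain ⟨hF1, hF2⟩ := hF e s hs
  let ev : {m : Fin (Module.finrank ℚ K) → ℤ // m ≠ 0} ≃ {α : 𝓞 K // α ∈ J ∧ α ≠ 0} :=
    Equiv.ofBijective (fun m => ⟨el b m.1, hmem m.1, hne m.1 m.2⟩) (by
      constructor
      · intro m m' hmm
        have e1 : el b m.1 = el b m'.1 := congrArg Subtype.val hmm
        obtain ⟨m0, -, hu⟩ := huniq (el b m.1) (hmem m.1)
        exact Subtype.ext ((hu m.1 rfl).trans (hu m'.1 e1.symm).symm)
      · rintro ⟨α, hα, hα0⟩
        obtain ⟨m0, hm0, -⟩ := huniq α hα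
        refine ⟨⟨m0, ?_⟩, Subtype.ext hm0⟩
        rintro rfl
        exact hα0 (by rw [← hm0]; exact h00))
  have hev : ∀ m, ((ev m).1 : 𝓞 K) = el b m.1 := fun m => rfl
  have hsummα : Summable (fun α : {α : 𝓞 K // α ∈ J ∧ α ≠ 0} => |FF K e s α.1|) := by
    have hns : (Module.finrank ℚ K : ℝ) < (Module.finrank ℚ K : ℝ) * s := by
      have : (0 : ℝ) < Module.finrank ℚ K := by exact_mod_cast hn
      nlinarith
    have h1 := (hSm K _ hns).mul_left B
    have h2 : Summable (fun α : {α : 𝓞 K // α ∈ J ∧ α ≠ 0} =>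
        B * UCF.sz K α.1 ^ (-((Module.finrank ℚ K : ℝ) * s))) :=
      h1.comp_injective Subtype.val_injective
    exact Summable.of_nonneg_of_le (fun α => abs_nonneg _) (fun α => hF1 α.1 α.2.2) h2
  refine ⟨hsummα, ?_⟩
  have hsummm : Summable (fun m : {m : Fin (Module.finrank ℚ K) → ℤ // m ≠ 0} =>
      |FF K e s (el b m.1)|) := by
    have := (ev.summable_iff).mpr hsummα
    exact this
  have key := hP q (fun m => FF K e s (el b m)) (fun m => h (el b m)) hq
    (by
      intro m hm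
      rw [← hsz]
      refine (hF1 _ (hne m hm)).trans ?_
      have h1 : 1 ≤ UCF.sz K (el b m) := hz1 _ (hne m hm)
      have h2 : UCF.sz K (el b m) ^ (-((Module.finrank ℚ K : ℝ) * s)) ≤
          UCF.sz K (el b m) ^ (-(Module.finrank ℚ K : ℝ)) := by
        apply Real.rpow_le_rpow_of_exponent_le h1
        have : (0 : ℝ) ≤ Module.finrank ℚ K := Nat.cast_nonneg _
        nlinarith
      have h3 : UCF.sz K (el b m) ^ (-(Module.finrank ℚ K : ℝ)) =
          (UCF.sz K (el b m) ^ (Module.finrank ℚ K))⁻¹ := by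
        rw [Real.rpow_neg (by linarith), Real.rpow_natCast]
      rw [← h3]
      exact mul_le_mul_of_nonneg_left h2 hB.le)
    (by
      intro m m' hm hm' hA'
      rw [← hsz, ← hsz, hsub] at hA'
      rw [← hsz, ← hsz, hsub]
      exact hF2 _ _ (hne m hm) (hne m' hm') hA')
    (fun m => hh _)
    (by
      intro m k
      have e1 : el b (fun i => m i + (q : ℤ) * k i) = el b m + (q : 𝓞 K) * el b k := by
        unfold el
        rw [Finset.mul_sum, ← Finset.sum_add_distrib]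
        refine Finset.sum_congr rfl fun i _ => ?_
        push_cast
        ring
      change h (el b (fun i => m i + (q : ℤ) * k i)) = h (el b m)
      rw [e1]
      exact hper _ (hmem m) _ (hmem k))
    (hsum b) hsummm
  have e2 : ∑' α : {α : 𝓞 K // α ∈ J ∧ α ≠ 0}, ((FF K e s α.1 : ℝ) : ℂ) * h α.1 =
      ∑' m : {m : Fin (Module.finrank ℚ K) → ℤ // m ≠ 0},
        ((FF K e s (el b m.1) : ℝ) : ℂ) * h (el b m.1) := by
    rw [← ev.tsum_eq]
    rfl
  rw [e2]
  exact key

end Pool.Agent.Work.MP_59f3ad_nt.USA
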