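import Pool.Agent.Work.MP_59f3ad_nt.US.A.Stmts

/-!
Item Sgn of the block US/A of MP_59f3ad_nt: two close integers, one of which has a nonzero weight,
have norms of the same sign.
-/

set_option autoImplicit false

open NumberField IsDedekindDomain

namespace Pool.Agent.Work.MP_59f3ad_nt.USA

namespace ISgn

open scoped ComplexConjugate

/-- the norm of `1 + d` is positive if `d` is small at all places -/
theorem norm_one_add_pos (K : Type) [Field K] [NumberField K] (d : K)
    (hd : ∀ w : InfinitePlace K, w d < 1) : 0 < Algebra.norm ℚ (1 + d) := by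
  obtain ⟨F, hF⟩ : ∃ F : ℝ → ℂ, F = fun s : ℝ => ∏ σ : K →ₐ[ℚ] ℂ, (1 + (s : ℂ) * σ d) :=
    ⟨_, rfl⟩
  have hcont : Continuous F := by
    rw [hF]
    exact continuous_finsetProd _ (fun σ _ => by fun_prop)
  have hconj : ∀ s, conj (F s) = F s := by
    intro s
    rw [hF]
    simp only [map_prod]
    refine Fintype.prod_equiv
      (AlgEquiv.arrowCongr (AlgEquiv.refl (R := ℚ) (A₁ := K)) (Complex.conjAe.restrictScalars ℚ))
      _ _ ?_
    intro σ
    simp [AlgEquiv.arrowCongr]
  have him : ∀ s, (F s).im = 0 := fun s => Complex.conj_eq_iff_im.mp (hconj s)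
  have hne : ∀ s ∈ Set.Icc (0 : ℝ) 1, F s ≠ 0 := by
    intro s hs
    rw [hF]
    show (∏ σ : K →ₐ[ℚ] ℂ, (1 + (s : ℂ) * σ d)) ≠ 0
    rw [Finset.prod_ne_zero_iff]
    intro σ _ h0
    have hσ : ‖σ d‖ < 1 := by
      have h := hd (InfinitePlace.mk (σ : K →+* ℂ))
      rwa [InfinitePlace.apply] at h
    have h1 : (s : ℂ) * σ d = -1 := by linear_combination h0
    have h2 : ‖(s : ℂ) * σ d‖ = 1 := by rw [h1]; simp
    rw [norm_mul, Complex.norm_real, Real.norm_eq_abs, abs_of_nonneg hs.1] at h2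
    nlinarith [hs.1, hs.2, norm_nonneg (σ d)]
  have hF0 : F 0 = 1 := by rw [hF]; simp
  have hF1 : F 1 = ((Algebra.norm ℚ (1 + d) : ℚ) : ℂ) := by
    rw [hF]
    have h := Algebra.norm_eq_prod_embeddings ℚ ℂ (1 + d)
    simp only [map_add, map_one] at h
    show (∏ σ : K →ₐ[ℚ] ℂ, (1 + ((1 : ℝ) : ℂ) * σ d)) = _
    simp only [Complex.ofReal_one, one_mul]
    rw [← h]
    simp
  have hre : 0 < (F 1).re := by
    by_contra hcon
    push Not at hcon
    have hcont' : ContinuousOn (fun s => (F s).re) (Set.Icc (0 : ℝ) 1) :=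
      (Complex.continuous_re.comp hcont).continuousOn
    have hivt := intermediate_value_Icc' (zero_le_one (α := ℝ)) hcont'
    have h0 : (0 : ℝ) ∈ Set.Icc ((F 1).re) ((F 0).re) := ⟨hcon, by rw [hF0]; simp⟩
    obtain ⟨s, hs, hs0⟩ := hivt h0
    exact hne s hs (Complex.ext hs0 (him s))
  rw [hF1] at hre
  have h5 : ((Algebra.norm ℚ (1 + d) : ℚ) : ℂ).re = ((Algebra.norm ℚ (1 + d) : ℚ) : ℝ) := by
    simp
  rw [h5] at hre
  exact_mod_cast hre

theorem sign_eq (K : Type) [Field K] [NumberField K] (z t : 𝓞 K) (hz : z ≠ 0)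
    (h : ∀ w : InfinitePlace K, w ((t : K) - z) < w (z : K)) :
    Int.sign (Algebra.norm ℤ z) = Int.sign (Algebra.norm ℤ t) := by
  have hzK : (z : K) ≠ 0 := by simpa using hz
  have hpos := norm_one_add_pos K (((t : K) - z) / z) (fun w => by
    rw [map_div₀]
    have hwz : 0 < w (z : K) := InfinitePlace.pos_iff.mpr hzK
    rw [div_lt_one hwz]
    exact h w)
  have hmul : (1 + ((t : K) - z) / z) * z = t := by
    field_simp
    ring
  have hN : Algebra.norm ℚ (1 + ((t : K) - z) / z) * Algebra.norm ℚ (z : K)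
      = Algebra.norm ℚ (t : K) := by
    rw [← map_mul, hmul]
  have h1 : ((Algebra.norm ℤ z : ℤ) : ℚ) = Algebra.norm ℚ (z : K) := Algebra.coe_norm_int z
  have h2 : ((Algebra.norm ℤ t : ℤ) : ℚ) = Algebra.norm ℚ (t : K) := Algebra.coe_norm_int t
  rw [← h1, ← h2] at hN
  rcases lt_trichotomy (Algebra.norm ℤ z) 0 with h3 | h3 | h3
  · have h4 : Algebra.norm ℤ t < 0 := by
      have h5 : ((Algebra.norm ℤ t : ℤ) : ℚ) < 0 := by
        rw [← hN]
        exact mul_neg_of_pos_of_neg hpos (by exact_mod_cast h3)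
      exact_mod_cast h5
    rw [Int.sign_eq_neg_one_of_neg h3, Int.sign_eq_neg_one_of_neg h4]
  · have h4 : Algebra.norm ℤ t = 0 := by
      have h5 : ((Algebra.norm ℤ t : ℤ) : ℚ) = 0 := by
        rw [← hN, h3]
        simp
      exact_mod_cast h5
    rw [h3, h4]
  · have h4 : 0 < Algebra.norm ℤ t := by
      have h5 : (0 : ℚ) < ((Algebra.norm ℤ t : ℤ) : ℚ) := by
        rw [← hN]
        exact mul_pos hpos (by exact_mod_cast h3)
      exact_mod_cast h5
    rw [Int.sign_eq_one_of_pos h3, Int.sign_eq_one_of_pos h4]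

theorem le_sz (K : Type) [Field K] [NumberField K] (r : 𝓞 K) (w : InfinitePlace K) :
    w (r : K) ≤ UCF.sz K r := by
  classical
  unfold UCF.sz
  rw [mixedEmbedding.norm_eq_sup'_normAtPlace, ← mixedEmbedding.normAtPlace_apply w (r : K)]
  exact Finset.le_sup' (fun w => mixedEmbedding.normAtPlace w (mixedEmbedding K (r : K)))
    (Finset.mem_univ w)

theorem sz_le (K : Type) [Field K] [NumberField K] (x y : 𝓞 K) :
    UCF.sz K x ≤ UCF.sz K y + UCF.sz K (y - x) := by
  classical
  unfold UCF.sz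
  have h : mixedEmbedding K (x : K) = mixedEmbedding K (y : K) -
      mixedEmbedding K ((y - x : 𝓞 K) : K) := by
    rw [← map_sub]
    congr 1
    push_cast
    ring
  rw [h]
  exact norm_sub_le (mixedEmbedding K (y : K)) (mixedEmbedding K ((y - x : 𝓞 K) : K))

end ISgn

theorem pr_Sgn : StSgn := by
  intro hWz K _ _
  obtain ⟨c, hc, hw⟩ := hWz K
  refine ⟨2 / c + 2, by positivity, ?_⟩
  intro x y hx hy hA hwt
  have hsz0 : 0 ≤ UCF.sz K (y - x) := by
    classical
    unfold UCF.sz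
    exact norm_nonneg (mixedEmbedding K ((y - x : 𝓞 K) : K))
  have hxK : (x : K) ≠ 0 := by simpa using hx
  have hszpos : 0 < UCF.sz K x := by
    obtain ⟨w0⟩ : Nonempty (InfinitePlace K) := inferInstance
    exact lt_of_lt_of_le (InfinitePlace.pos_iff.mpr hxK) (ISgn.le_sz K x w0)
  have hd2 : UCF.sz K (y - x) ≤ UCF.sz K x / 2 := by
    have h1 : 0 ≤ 2 / c * UCF.sz K (y - x) := by positivity
    nlinarith [hA, h1]
  have hd1 : UCF.sz K (y - x) < c * UCF.sz K x / 2 := by
    have h2 : c * ((2 / c + 2) * UCF.sz K (y - x)) ≤ c * UCF.sz K x :=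
      mul_le_mul_of_nonneg_left hA hc.le
    have h3 : c * ((2 / c + 2) * UCF.sz K (y - x))
        = 2 * UCF.sz K (y - x) + 2 * c * UCF.sz K (y - x) := by
      field_simp
    rw [h3] at h2
    rcases hsz0.lt_or_eq with h4 | h4
    · have : 0 < 2 * c * UCF.sz K (y - x) := by positivity
      linarith
    · rw [← h4]
      positivity
  rcases hwt with hwx | hwy
  · apply ISgn.sign_eq K x y hx
    intro w
    have h1 := ISgn.le_sz K (y - x) w
    have h2 := (hw x hx hwx).1 w
    have h3 : ((y - x : 𝓞 K) : K) = (y : K) - x := by push_cast; ring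
    rw [h3] at h1
    have h4 : 0 < c * UCF.sz K x := by positivity
    linarith
  · symm
    apply ISgn.sign_eq K y x hy
    intro w
    have h1 := ISgn.le_sz K (y - x) w
    have h2 := (hw y hy hwy).1 w
    have h3 : w ((x : K) - y) = w (((y - x : 𝓞 K)) : K) := by
      have h5 : ((x : K) - y) = -(((y - x : 𝓞 K)) : K) := by push_cast; ring
      rw [h5]
      exact w.1.map_neg _
    rw [h3]
    have h4 := ISgn.sz_le K x y
    have h5 : UCF.sz K x / 2 ≤ UCF.sz K y := by linarith
    have h6 : c * (UCF.sz K x / 2) ≤ c * UCF.sz K y := mul_le_mul_of_nonneg_left h5 hc.le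
    linarith

end Pool.Agent.Work.MP_59f3ad_nt.USA
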