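import Pool.Agent.Work.MP_59f3ad_nt.US.A.Stmts

/-!
Block US/A of MP_59f3ad_nt, item Sx: the sum over the ideals of one class.
-/

set_option autoImplicit false

open NumberField IsDedekindDomain

namespace Pool.Agent.Work.MP_59f3ad_nt.USA

namespace ISx

/-- the sign exponent of a character -/
theorem sign_exp (q : ℕ) [NeZero q] (χ : DirichletCharacter ℂ q) : ∃ e : ℕ, ∀ m : ℤ, m ≠ 0 →
    χ ((m.natAbs : ℕ) : ZMod q) = ((m.sign : ℤ) : ℂ) ^ e * χ ((m : ℤ) : ZMod q) := by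
  have key : ∀ m : ℤ, m < 0 → ((m.natAbs : ℕ) : ZMod q) = -1 * ((m : ℤ) : ZMod q) := by
    intro m hm
    have h1 : ((m.natAbs : ℕ) : ℤ) = -m := by
      rw [Int.natCast_natAbs, abs_of_neg hm]
    have h2 : (((m.natAbs : ℕ) : ℤ) : ZMod q) = ((-m : ℤ) : ZMod q) := by rw [h1]
    rw [Int.cast_natCast] at h2
    rw [h2]
    push_cast
    ring
  have kp : ∀ m : ℤ, 0 < m → ((m.natAbs : ℕ) : ZMod q) = ((m : ℤ) : ZMod q) := by
    intro m hm
    have h1 : ((m.natAbs : ℕ) : ℤ) = m := by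
      rw [Int.natCast_natAbs, abs_of_pos hm]
    have h2 : (((m.natAbs : ℕ) : ℤ) : ZMod q) = ((m : ℤ) : ZMod q) := by rw [h1]
    rw [Int.cast_natCast] at h2
    exact h2
  rcases χ.even_or_odd with h | h
  · refine ⟨0, fun m hm => ?_⟩
    rcases lt_or_gt_of_ne hm with h0 | h0
    · rw [key m h0, map_mul, show χ (-1) = 1 from h, one_mul, pow_zero, one_mul]
    · rw [kp m h0, pow_zero, one_mul]
  · refine ⟨1, fun m hm => ?_⟩
    rcases lt_or_gt_of_ne hm with h0 | h0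
    · rw [key m h0, map_mul, show χ (-1) = -1 from h, pow_one, Int.sign_eq_neg_one_of_neg h0]
      push_cast
      ring
    · rw [kp m h0, pow_one, Int.sign_eq_one_of_pos h0]
      push_cast
      ring

end ISx

open ISx in
theorem pr_Sx : StSx := by
  intro hSi hSz hNp K _ _ J hJ hPJ hU
  obtain ⟨C, hC, hP⟩ := hPJ
  set N := Ideal.absNorm J with hN
  have hN0 : N ≠ 0 := by
    rw [hN, ne_eq, Ideal.absNorm_eq_zero_iff]
    exact hJ
  have hN1 : (1 : ℝ) ≤ (N : ℝ) := by exact_mod_cast Nat.one_le_iff_ne_zero.2 hN0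
  refine ⟨(N : ℝ) ^ 2 * C, by positivity, ?_⟩
  intro q χ s hq hqN hs hs2 hZ
  have : NeZero q := ⟨hq.ne_zero⟩
  obtain ⟨e, he⟩ := sign_exp q χ
  obtain ⟨-, -, -, hnrm, -⟩ := hSz K
  set f : ℕ → ℂ := fun k => χ ((k : ℕ) : ZMod q) * ((((k : ℕ) : ℝ) ^ (-s) : ℝ) : ℂ) with hf
  have hsum : Summable (fun a : {a : Ideal (𝓞 K) // a ≠ ⊥ ∧ UCF.cls K a = (UCF.cls K J)⁻¹} =>
      ‖f (Ideal.absNorm a.1)‖) := by
    have h1 := (hSi K s hs).comp_injective
      (Subtype.val_injective (p := fun a : Ideal (𝓞 K) => a ≠ ⊥ ∧ UCF.cls K a = (UCF.cls K J)⁻¹))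
    refine Summable.of_nonneg_of_le (fun _ => norm_nonneg _) (fun a => ?_) h1
    rw [hf]
    simp only [Function.comp_apply, norm_mul, Complex.norm_real, Real.norm_eq_abs]
    rw [abs_of_nonneg (by positivity)]
    exact mul_le_of_le_one_left (by positivity) (DirichletCharacter.norm_le_one _ _)
  have hH := (hU f hsum).tsum_eq
  set S := ∑' a : {a : Ideal (𝓞 K) // a ≠ ⊥ ∧ UCF.cls K a = (UCF.cls K J)⁻¹},
    f (Ideal.absNorm a.1) with hS
  have hχN : ‖χ ((N : ℕ) : ZMod q)‖ = 1 := by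
    have hcop : Nat.Coprime N q := ((Nat.Prime.coprime_iff_not_dvd hq).2 hqN).symm
    have := DirichletCharacter.unit_norm_eq_one χ (ZMod.unitOfCoprime N hcop)
    rwa [ZMod.coe_unitOfCoprime] at this
  set h : 𝓞 K → ℂ := fun α => χ ((Algebra.norm ℤ α : ℤ) : ZMod q) with hh
  obtain ⟨-, hb⟩ := hP q e s h hq.one_lt.le hs hs2
    (fun α => DirichletCharacter.norm_le_one _ _)
    (fun α _ γ _ => by simp only [hh, hNp K q α γ]) hZ
  have hterm : ∀ α : {α : 𝓞 K // α ∈ J ∧ α ≠ 0},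
      χ ((N : ℕ) : ZMod q) * (((UCF.wt K α.1 : ℝ) : ℂ) *
        f ((Algebra.norm ℤ α.1).natAbs / N)) =
      ((((N : ℝ) ^ s : ℝ)) : ℂ) * (((FF K e s α.1 : ℝ) : ℂ) * h α.1) := by
    intro α
    have hn0 : Algebra.norm ℤ α.1 ≠ 0 := by
      rw [ne_eq, Algebra.norm_eq_zero_iff]
      exact α.2.2
    have hdvd : N ∣ (Algebra.norm ℤ α.1).natAbs :=
      Int.natCast_dvd.1 (Ideal.absNorm_dvd_norm_of_mem α.2.1)
    obtain ⟨k, hk⟩ := hdvd
    have hk0 : k ≠ 0 := by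
      rintro rfl
      rw [mul_zero] at hk
      exact hn0 (Int.natAbs_eq_zero.1 hk)
    have hdiv : (Algebra.norm ℤ α.1).natAbs / N = k := by
      rw [hk]
      exact Nat.mul_div_cancel_left k (Nat.pos_of_ne_zero hN0)
    have hχ : χ ((N : ℕ) : ZMod q) * χ ((k : ℕ) : ZMod q) =
        ((Int.sign (Algebra.norm ℤ α.1) : ℤ) : ℂ) ^ e * χ ((Algebra.norm ℤ α.1 : ℤ) : ZMod q) := by
      rw [← he _ hn0, hk, Nat.cast_mul, map_mul]
    have hpow : (N : ℝ) ^ s * (UCF.nrm K α.1) ^ (-s) = ((k : ℕ) : ℝ) ^ (-s) := by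
      rw [hnrm, hk, Nat.cast_mul, Real.mul_rpow (by positivity) (by positivity), ← mul_assoc,
        ← Real.rpow_add (by positivity), add_neg_cancel, Real.rpow_zero, one_mul]
    rw [hdiv, hf, hh]
    simp only [FF]
    rw [← hpow]
    push_cast
    linear_combination ((UCF.wt K α.1 : ℝ) : ℂ) * (((N : ℝ) ^ s : ℝ) : ℂ) *
      (((UCF.nrm K α.1) ^ (-s) : ℝ) : ℂ) * hχ
  have h1 : χ ((N : ℕ) : ZMod q) * ((Units.torsionOrder K : ℂ) * S) =
      ((((N : ℝ) ^ s : ℝ)) : ℂ) *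
        ∑' α : {α : 𝓞 K // α ∈ J ∧ α ≠ 0}, ((FF K e s α.1 : ℝ) : ℂ) * h α.1 := by
    rw [← hH, ← tsum_mul_left, ← tsum_mul_left]
    exact tsum_congr hterm
  have h2 := congrArg norm h1
  rw [norm_mul, norm_mul, norm_mul, hχN, one_mul, Complex.norm_real, Complex.norm_natCast,
    Real.norm_eq_abs, abs_of_nonneg (by positivity)] at h2
  have hT : (1 : ℝ) ≤ (Units.torsionOrder K : ℝ) := by
    exact_mod_cast Nat.one_le_iff_ne_zero.2 (Units.torsionOrder_ne_zero K)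
  have h3 : ‖S‖ ≤ (Units.torsionOrder K : ℝ) * ‖S‖ := le_mul_of_one_le_left (norm_nonneg _) hT
  have h4 : (N : ℝ) ^ s ≤ (N : ℝ) ^ 2 := by
    rw [← Real.rpow_natCast]
    exact Real.rpow_le_rpow_of_exponent_le hN1 (by exact_mod_cast hs2)
  calc ‖S‖ ≤ (Units.torsionOrder K : ℝ) * ‖S‖ := h3
    _ = (N : ℝ) ^ s * ‖∑' α : {α : 𝓞 K // α ∈ J ∧ α ≠ 0}, ((FF K e s α.1 : ℝ) : ℂ) * h α.1‖ := h2
    _ ≤ (N : ℝ) ^ 2 * (C * (1 + Real.log q)) := by
        refine mul_le_mul h4 hb (norm_nonneg _) (by positivity)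
    _ = (N : ℝ) ^ 2 * C * (1 + Real.log q) := by ring

end Pool.Agent.Work.MP_59f3ad_nt.USA
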