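import Pool.Agent.Work.MP_59f3ad_nt.US.A.Stmts

/-!
# Block US/A, item Sz: elementary facts on the size
-/

open NumberField IsDedekindDomain

namespace Pool.Agent.Work.MP_59f3ad_nt.USA

namespace ISz

variable (K : Type) [Field K] [NumberField K]

/-- The size is at least every absolute value. -/
theorem place_le (x : 𝓞 K) (w : InfinitePlace K) : w (x : K) ≤ UCF.sz K x := by
  classical
  unfold UCF.sz
  rw [← mixedEmbedding.normAtPlace_apply w (x : K), mixedEmbedding.norm_eq_sup'_normAtPlace]
  exact Finset.le_sup' (fun w => mixedEmbedding.normAtPlace w (mixedEmbedding K (x : K)))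
    (Finset.mem_univ w)

/-- The size of a nonzero integer is at least one. -/
theorem one_le (x : 𝓞 K) (hx : x ≠ 0) : 1 ≤ UCF.sz K x := by
  obtain ⟨w⟩ := (inferInstance : Nonempty (InfinitePlace K))
  by_cases h : ∀ z : InfinitePlace K, z ≠ w → z (x : K) < 1
  · exact (InfinitePlace.one_le_of_lt_one hx (fun z hz => h z hz)).trans (place_le K x w)
  · push Not at h
    obtain ⟨z, -, hz⟩ := h
    exact hz.trans (place_le K x z)

end ISz

theorem pr_Sz : StSz := by
  intro K _ _
  refine ⟨ISz.one_le K, ?_, ?_, ?_, ISz.place_le K⟩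
  · intro x y
    classical
    unfold UCF.sz
    have h1 : (((x + y : 𝓞 K)) : K) = (x : K) + (y : K) := rfl
    rw [h1, map_add]
    exact norm_add_le (mixedEmbedding K (x : K)) (mixedEmbedding K (y : K))
  · intro m x
    classical
    unfold UCF.sz
    have h1 : (((m : 𝓞 K) * x : 𝓞 K) : K) = m • (x : K) := by
      rw [zsmul_eq_mul]
      simp
    rw [h1, map_zsmul, ← Int.cast_smul_eq_zsmul ℝ, norm_smul, Real.norm_eq_abs]
  · intro x
    unfold UCF.nrm
    rw [Ideal.absNorm_span_singleton]

end Pool.Agent.Work.MP_59f3ad_nt.USA
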