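import Pool.Agent.Work.MP_59f3ad_nt.US.A.Stmts

/-!
Block US/A of MP_59f3ad_nt, item Un: unfolding.
-/

open NumberField IsDedekindDomain

namespace Pool.Agent.Work.MP_59f3ad_nt.USA

namespace IUn

theorem wt_nonneg (K : Type) [Field K] [NumberField K] (x : 𝓞 K) : 0 ≤ UCF.wt K x := by
  unfold UCF.wt
  exact Finset.prod_nonneg fun i _ => le_max_left _ _

theorem gen {A U : Type} (w : A → U → ℝ) (c : ℝ) (F : A → ℂ) (hw : ∀ a u, 0 ≤ w a u)
    (hfib : ∀ a, HasSum (w a) c) (hF : Summable fun a => ‖F a‖) :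
    HasSum (fun p : A × U => ((w p.1 p.2 : ℝ) : ℂ) * F p.1) ((c : ℂ) * ∑' a, F a) := by
  have hfibC : ∀ a : A, HasSum (fun u : U => ((w a u : ℝ) : ℂ) * F a) ((c : ℂ) * F a) :=
    fun a => (Complex.hasSum_ofReal.2 (hfib a)).mul_right (F a)
  have hsn : Summable (fun p : A × U => ‖((w p.1 p.2 : ℝ) : ℂ) * F p.1‖) := by
    have hn : ∀ p : A × U, ‖((w p.1 p.2 : ℝ) : ℂ) * F p.1‖ = w p.1 p.2 * ‖F p.1‖ := by
      intro p
      rw [norm_mul, Complex.norm_real, Real.norm_of_nonneg (hw _ _)]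
    simp only [hn]
    have h0 : 0 ≤ fun p : A × U => w p.1 p.2 * ‖F p.1‖ := by
      rw [Pi.le_def]
      intro p
      simp only [Pi.zero_apply]
      exact mul_nonneg (hw p.1 p.2) (norm_nonneg (F p.1))
    rw [summable_prod_of_nonneg h0]
    have h8 : ∀ a : A, HasSum (fun u : U => w a u * ‖F a‖) (c * ‖F a‖) :=
      fun a => (hfib a).mul_right ‖F a‖
    refine ⟨fun a => (h8 a).summable, ?_⟩
    have h3 : (fun a : A => ∑' u : U, w a u * ‖F a‖) = fun a => c * ‖F a‖ := by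
      funext a
      exact (h8 a).tsum_eq
    simp only at h3 ⊢
    rw [h3]
    exact hF.mul_left c
  have hs := hsn.of_norm
  have h4 := hs.hasSum.prod_fiberwise hfibC
  have h5 : HasSum (fun a : A => (c : ℂ) * F a) ((c : ℂ) * ∑' a, F a) :=
    hF.of_norm.hasSum.mul_left _
  rw [h5.unique h4]
  exact hs.hasSum

end IUn

open IUn in
theorem pr_Un : StUn := by
  intro hWu hBj K _ _ J hJ f hf
  obtain ⟨g, e, he, hg⟩ := hBj K J hJ
  have hJ0 : 0 < Ideal.absNorm J :=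
    Nat.pos_of_ne_zero fun h => hJ (Ideal.absNorm_eq_zero_iff.1 h)
  have hg0 : ∀ a, g a ≠ 0 := by
    intro a h
    have h1 := hg a
    rw [h, Algebra.norm_zero, Int.natAbs_zero] at h1
    have h2 : Ideal.absNorm a.1 ≠ 0 := fun h => a.2.1 (Ideal.absNorm_eq_zero_iff.1 h)
    exact (Nat.mul_ne_zero h2 hJ0.ne') h1.symm
  have hterm : ∀ p : {a : Ideal (𝓞 K) // a ≠ ⊥ ∧ UCF.cls K a = (UCF.cls K J)⁻¹} × (𝓞 K)ˣ,
      ((UCF.wt K (e p).1 : ℝ) : ℂ) *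
        f ((Algebra.norm ℤ (e p).1).natAbs / Ideal.absNorm J) =
      ((UCF.wt K ((p.2 : 𝓞 K) * g p.1) : ℝ) : ℂ) * f (Ideal.absNorm p.1.1) := by
    rintro ⟨a, u⟩
    simp only
    rw [he a u, map_mul, Int.natAbs_mul, hg a,
      Int.natAbs_of_isUnit (u.isUnit.map (Algebra.norm ℤ)), one_mul, Nat.mul_div_cancel _ hJ0]
  have h7 := gen (A := {a : Ideal (𝓞 K) // a ≠ ⊥ ∧ UCF.cls K a = (UCF.cls K J)⁻¹})
    (U := (𝓞 K)ˣ) (fun a u => UCF.wt K ((u : 𝓞 K) * g a)) (Units.torsionOrder K : ℝ)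
    (fun a => f (Ideal.absNorm a.1)) (fun a u => wt_nonneg K _) (fun a => hWu K (g a) (hg0 a)) hf
  refine (Equiv.hasSum_iff e).1 ?_
  have h6 : ((fun α : {α : 𝓞 K // α ∈ J ∧ α ≠ 0} => ((UCF.wt K α.1 : ℝ) : ℂ) *
        f ((Algebra.norm ℤ α.1).natAbs / Ideal.absNorm J)) ∘ e) =
      fun p => ((UCF.wt K ((p.2 : 𝓞 K) * g p.1) : ℝ) : ℂ) * f (Ideal.absNorm p.1.1) :=
    funext hterm
  rw [h6]
  simpa using h7

end Pool.Agent.Work.MP_59f3ad_nt.USA
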