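import Pool.Agent.Work.MP_59f3ad_nt.US.A.Stmts
import Pool.Agent.Work.MP_59f3ad_nt.US.A.I_Bj
import Pool.Agent.Work.MP_59f3ad_nt.US.A.I_Fd
import Pool.Agent.Work.MP_59f3ad_nt.US.A.I_Jb
import Pool.Agent.Work.MP_59f3ad_nt.US.A.I_LBa
import Pool.Agent.Work.MP_59f3ad_nt.US.A.I_Ne
import Pool.Agent.Work.MP_59f3ad_nt.US.A.I_No
import Pool.Agent.Work.MP_59f3ad_nt.US.A.I_Np
import Pool.Agent.Work.MP_59f3ad_nt.US.A.I_Nz
import Pool.Agent.Work.MP_59f3ad_nt.US.A.I_Pa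
import Pool.Agent.Work.MP_59f3ad_nt.US.A.I_Pd
import Pool.Agent.Work.MP_59f3ad_nt.US.A.I_Pj
import Pool.Agent.Work.MP_59f3ad_nt.US.A.I_Sgn
import Pool.Agent.Work.MP_59f3ad_nt.US.A.I_Sx
import Pool.Agent.Work.MP_59f3ad_nt.US.A.I_Sz
import Pool.Agent.Work.MP_59f3ad_nt.US.A.I_Un
import Pool.Agent.Work.MP_59f3ad_nt.UCF.I_Si
import Pool.Agent.Work.MP_59f3ad_nt.UCF.I_Wz
import Pool.Agent.Work.MP_59f3ad_nt.UCF.I_Wu

/-!
Assembly of the block US/A: the twisted bound `US.H.LB` from the two items `StSm`, `StWe` of the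
library UCF.
-/

open NumberField IsDedekindDomain

namespace Pool.Agent.Work.MP_59f3ad_nt.USA

theorem lb_of (hSm : UCF.StSm.{0}) (hWe : UCF.StWe.{0}) : US.H.LB := by
  refine pr_LBa UCF.pr_Si pr_Np pr_Nz pr_No ?_
  intro K _ _ J hJ
  have hFd := pr_Fd UCF.pr_Wz hWe pr_Sz pr_Sgn
  have hPJ : PJ K J := pr_Pj hSm pr_Sz pr_Pa pr_Ne pr_Pd pr_Jb hFd K J hJ
  exact pr_Sx UCF.pr_Si pr_Sz pr_Np K J hJ hPJ (pr_Un UCF.pr_Wu pr_Bj K J hJ)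

end Pool.Agent.Work.MP_59f3ad_nt.USA
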