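import Pool.Agent.Work.MP_59f3ad_nt.UCF.Stmts
import Pool.Agent.Work.MP_59f3ad_nt.US.H.Stmts

/-!
Definitions for the block US/A (captain helper45) of MP_59f3ad_nt: the bound
`‖∑ χ(N a) N a^(-s)‖ ≤ C (1 + log p)` for nontrivial characters modulo large primes `p`, uniformly in
`1 < s ≤ 2`. The definitions `cls`, `nrm`, `sz`, `wt` are those of the library UCF (helper23), the
final statement is `US.H.LB` (helper44).
-/

open NumberField IsDedekindDomain

namespace Pool.Agent.Work.MP_59f3ad_nt.USA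

noncomputable section

/-- The weighted term with a power of the sign of the norm:
`sign(N x)^e wt(x) |N x|^(-s)`. -/
def FF (K : Type) [Field K] [NumberField K] (e : ℕ) (s : ℝ) (x : 𝓞 K) : ℝ :=
  ((Int.sign (Algebra.norm ℤ x) : ℤ) : ℝ) ^ e * (UCF.wt K x * UCF.nrm K x ^ (-s))

/-- The point `∑ m_i v_i`. -/
def ph {E : Type} [NormedAddCommGroup E] [NormedSpace ℝ E] {n : ℕ} (v : Fin n → E)
    (m : Fin n → ℤ) : E := ∑ i, (m i : ℝ) • v i

/-- The element `∑ m_i b_i` of an ideal with the basis `b`. -/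
def el {K : Type} [Field K] [NumberField K] {J : Ideal (𝓞 K)} {n : ℕ}
    (b : Module.Basis (Fin n) ℤ J) (m : Fin n → ℤ) : 𝓞 K := ∑ i, (m i : 𝓞 K) * ((b i : J) : 𝓞 K)

end

end Pool.Agent.Work.MP_59f3ad_nt.USA
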