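import Pool.Agent.Work.MP_59f3ad_nt.US.A.Stmts

/-!
Block US/A of MP_59f3ad_nt, item Pa: the pairing lemma.
-/

set_option autoImplicit false

open NumberField IsDedekindDomain

namespace Pool.Agent.Work.MP_59f3ad_nt.USA

namespace IPa

section

variable {E : Type} [NormedAddCommGroup E] [NormedSpace ℝ E] {n : ℕ} (v : Fin n → E)

theorem ph_sub (m m' : Fin n → ℤ) : ph v (m' - m) = ph v m' - ph v m := by
  unfold ph
  rw [← Finset.sum_sub_distrib]
  refine Finset.sum_congr rfl fun i _ => ?_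
  rw [Pi.sub_apply, Int.cast_sub, sub_smul]

theorem ph_zero : ph v 0 = 0 := by
  unfold ph
  simp

theorem ph_add (m m' : Fin n → ℤ) : ph v (m + m') = ph v m + ph v m' := by
  unfold ph
  rw [← Finset.sum_add_distrib]
  refine Finset.sum_congr rfl fun i _ => ?_
  rw [Pi.add_apply, Int.cast_add, add_smul]

theorem ph_mul (q : ℕ) (l : Fin n → ℤ) : ph v (fun i => (q : ℤ) * l i) = (q : ℝ) • ph v l := by
  unfold ph
  rw [Finset.smul_sum]
  refine Finset.sum_congr rfl fun i _ => ?_
  push_cast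
  rw [mul_smul]

theorem ph_mem (m : Fin n → ℤ) : ph v m ∈ Submodule.span ℤ (Set.range v) := by
  unfold ph
  refine Submodule.sum_mem _ fun i _ => ?_
  rw [Int.cast_smul_eq_zsmul]
  exact Submodule.smul_mem _ _ (Submodule.subset_span ⟨i, rfl⟩)

theorem ph_surj (z : E) (hz : z ∈ Submodule.span ℤ (Set.range v)) : ∃ m, ph v m = z := by
  obtain ⟨m, hm⟩ := (Submodule.mem_span_range_iff_exists_fun ℤ).1 hz
  refine ⟨m, ?_⟩
  rw [← hm]
  unfold ph
  refine Finset.sum_congr rfl fun i _ => ?_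
  rw [Int.cast_smul_eq_zsmul]

theorem ph_inj (h : ∀ m : Fin n → ℤ, m ≠ 0 → 1 ≤ ‖ph v m‖) : Function.Injective (ph v) := by
  intro m m' hmm
  by_contra hne
  have h1 := h (m' - m) (sub_ne_zero.2 (Ne.symm hne))
  rw [ph_sub, hmm, sub_self, norm_zero] at h1
  linarith

theorem discr (h : ∀ m : Fin n → ℤ, m ≠ 0 → 1 ≤ ‖ph v m‖) :
    DiscreteTopology (Submodule.span ℤ (Set.range v)) := by
  refine DiscreteTopology.of_forall_le_dist (r := 1) one_pos ?_
  intro x y hxy
  obtain ⟨m, hm⟩ := ph_surj v x.1 x.2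
  obtain ⟨m', hm'⟩ := ph_surj v y.1 y.2
  have hne : m - m' ≠ 0 := by
    intro h0
    apply hxy
    apply Subtype.ext
    rw [← hm, ← hm', sub_eq_zero.1 h0]
  have h1 := h _ hne
  rw [ph_sub, hm, hm'] at h1
  rw [Subtype.dist_eq, dist_eq_norm]
  exact h1

theorem rank (hv : LinearIndependent ℝ v) :
    Module.finrank ℤ (Submodule.span ℤ (Set.range v)) = n := by
  have h1 : LinearIndependent ℤ v := hv.restrict_scalars (by
    intro a b hab
    simpa using hab)
  rw [finrank_span_eq_card h1, Fintype.card_fin]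

theorem ph_le (q : ℕ) (k : Fin n → Fin q) :
    ‖ph v (fun i => ((k i : ℕ) : ℤ))‖ ≤ (∑ i, ‖v i‖) * q := by
  unfold ph
  refine (norm_sum_le _ _).trans ?_
  rw [Finset.sum_mul]
  refine Finset.sum_le_sum fun i _ => ?_
  rw [norm_smul, mul_comm]
  refine mul_le_mul_of_nonneg_left ?_ (norm_nonneg _)
  rw [Int.cast_natCast, Real.norm_eq_abs, Nat.abs_cast]
  exact_mod_cast (k i).2.le

theorem div_inj (q : ℕ) : Function.Injective (fun x : (Fin n → ℤ) × (Fin n → Fin q) =>
    (fun i => (q : ℤ) * x.1 i + ((x.2 i : ℕ) : ℤ) : Fin n → ℤ)) := by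
  rintro ⟨l, k⟩ ⟨l', k'⟩ h
  have h1 : ∀ i, (q : ℤ) * l i + ((k i : ℕ) : ℤ) = (q : ℤ) * l' i + ((k' i : ℕ) : ℤ) :=
    fun i => congrFun h i
  have key : ∀ (l : Fin n → ℤ) (k : Fin n → Fin q) (i : Fin n),
      ((q : ℤ) * l i + ((k i : ℕ) : ℤ)) / q = l i ∧
        ((q : ℤ) * l i + ((k i : ℕ) : ℤ)) % q = ((k i : ℕ) : ℤ) := by
    intro l k i
    have hk := (k i).2
    have hq : (0 : ℤ) < q := by
      have : 0 < q := lt_of_le_of_lt (Nat.zero_le _) hk
      exact_mod_cast this
    have h0 : (0 : ℤ) ≤ ((k i : ℕ) : ℤ) := Int.natCast_nonneg _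
    have h2 : ((k i : ℕ) : ℤ) < q := by exact_mod_cast hk
    constructor
    · rw [Int.mul_add_ediv_left _ _ hq.ne', Int.ediv_eq_zero_of_lt h0 h2, add_zero]
    · rw [Int.mul_add_emod_self_left, Int.emod_eq_of_lt h0 h2]
  refine Prod.ext ?_ ?_
  · funext i
    have := (key l k i).1
    rw [h1 i, (key l' k' i).1] at this
    exact this.symm
  · funext i
    have := (key l k i).2
    rw [h1 i, (key l' k' i).2] at this
    apply Fin.ext
    exact_mod_cast this.symm

end

end IPa

open IPa in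
theorem pr_Pa : StPa := by
  classical
  intro hNe hPd E _ _ _ n v hn hv hm1 A B hA hB
  have hdis := discr v hm1
  have hrk := rank v hv
  have hinj := ph_inj v hm1
  obtain ⟨C1, hC1, hNe1⟩ := hNe E (Submodule.span ℤ (Set.range v)) n hrk hn
  let e : (Fin n → ℤ) → Submodule.span ℤ (Set.range v) := fun m => ⟨ph v m, ph_mem v m⟩
  have he : Function.Injective e := fun a b hab => hinj (congrArg Subtype.val hab)
  have ha : ∀ (Y : ℝ) (T : Finset (Fin n → ℤ)), 1 ≤ Y →
      (∀ m ∈ T, 1 ≤ ‖ph v m‖ ∧ ‖ph v m‖ ≤ Y) →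
      ∑ m ∈ T, (‖ph v m‖ ^ n)⁻¹ ≤ C1 * (1 + Real.log Y) := by
    intro Y T hY hT
    have := hNe1 Y (T.map ⟨e, he⟩) hY (by
      intro z hz
      obtain ⟨m, hm, rfl⟩ := Finset.mem_map.1 hz
      exact hT m hm)
    rwa [Finset.sum_map] at this
  have hb : Summable (fun l : Fin n → ℤ => (‖ph v l‖ ^ (n + 1))⁻¹) := by
    have := (ZLattice.summable_norm_pow_inv (Submodule.span ℤ (Set.range v)) (n + 1)
      (by rw [hrk]; omega)).comp_injective he
    refine this.congr fun l => ?_
    simp only [Function.comp_apply, inv_pow]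
    rfl
  set Z := ∑' l : Fin n → ℤ, (‖ph v l‖ ^ (n + 1))⁻¹ with hZdef
  have hZ : 0 ≤ Z := tsum_nonneg fun _ => by positivity
  set D := ∑ i, ‖v i‖ with hDdef
  have hD : 0 ≤ D := Finset.sum_nonneg fun _ _ => norm_nonneg _
  set R := A * D + D + 1 with hR
  have hAD : 0 ≤ A * D := by positivity
  have hR1 : 1 ≤ R := by linarith
  have hRD : 1 ≤ R + D := by linarith
  have hlog : 0 ≤ Real.log (R + D) := Real.log_nonneg hRD
  refine ⟨B * D * Z + B * C1 * (1 + Real.log (R + D)), by positivity, ?_⟩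
  intro q g h hq hg1 hg2 hh1 hh2 hh3 hsum
  have hq1 : (1 : ℝ) ≤ q := by exact_mod_cast hq
  have hq0 : (0 : ℝ) < q := by linarith
  have hlq : 0 ≤ Real.log q := Real.log_nonneg hq1
  set F : (Fin n → ℤ) → ℂ := Set.indicator {m : Fin n → ℤ | m ≠ 0}
    (fun m => ((g m : ℝ) : ℂ) * h m) with hFdef
  have hF : ∑' m : {m : Fin n → ℤ // m ≠ 0}, ((g m.1 : ℝ) : ℂ) * h m.1 = ∑' m, F m :=
    tsum_subtype {m : Fin n → ℤ | m ≠ 0} (fun m => ((g m : ℝ) : ℂ) * h m)
  have hF0 : ∀ m, m ≠ 0 → F m = ((g m : ℝ) : ℂ) * h m := fun m hm =>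
    Set.indicator_of_mem (s := {m : Fin n → ℤ | m ≠ 0}) hm _
  have hFz : F 0 = 0 := Set.indicator_of_notMem (s := {m : Fin n → ℤ | m ≠ 0}) (by simp) _
  have hFle : ∀ m, m ≠ 0 → ‖F m‖ ≤ |g m| := by
    intro m hm
    rw [hF0 m hm, norm_mul, Complex.norm_real, Real.norm_eq_abs]
    exact mul_le_of_le_one_right (abs_nonneg _) (hh1 m)
  have hFs : Summable (fun m => ‖F m‖) := by
    have h1 : Summable (Set.indicator {m : Fin n → ℤ | m ≠ 0} fun m => |g m|) :=
      summable_subtype_iff_indicator.1 hsum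
    refine Summable.of_nonneg_of_le (fun _ => norm_nonneg _) (fun m => ?_) h1
    by_cases hm : m = 0
    · subst hm
      rw [hFz, norm_zero]
      exact Set.indicator_nonneg (fun _ _ => abs_nonneg _) _
    · rw [Set.indicator_of_mem (s := {m : Fin n → ℤ | m ≠ 0}) hm]
      exact hFle m hm
  obtain ⟨hs1, hs2⟩ := hPd n q F hq hFs
  rw [hF, hs2]
  refine (norm_tsum_le_tsum_norm hs1).trans ?_
  refine hs1.tsum_le_of_sum_le fun U => ?_
  rw [← Finset.sum_filter_add_sum_filter_not U (fun l => R ≤ ‖ph v l‖)]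
  -- the far part
  have hfar : ∑ l ∈ U with R ≤ ‖ph v l‖,
      ‖∑ k : Fin n → Fin q, F (fun i => (q : ℤ) * l i + ((k i : ℕ) : ℤ))‖ ≤ B * D * Z := by
    have hl : ∀ l ∈ U.filter (fun l => R ≤ ‖ph v l‖),
        ‖∑ k : Fin n → Fin q, F (fun i => (q : ℤ) * l i + ((k i : ℕ) : ℤ))‖ ≤
          B * D * (‖ph v l‖ ^ (n + 1))⁻¹ := by
      intro l hl
      have hRl : R ≤ ‖ph v l‖ := (Finset.mem_filter.1 hl).2
      have hl0 : 0 < ‖ph v l‖ := by linarith
      set m : Fin n → ℤ := fun i => (q : ℤ) * l i with hm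
      have hphm : ph v m = (q : ℝ) • ph v l := ph_mul v q l
      have hnm : ‖ph v m‖ = q * ‖ph v l‖ := by
        rw [hphm, norm_smul, Real.norm_eq_abs, abs_of_pos hq0]
      have hm0 : m ≠ 0 := by
        intro h0
        rw [h0, ph_zero, norm_zero] at hnm
        have : 0 < (q : ℝ) * ‖ph v l‖ := by positivity
        linarith
      have hk : ∀ k : Fin n → Fin q,
          (fun i => (q : ℤ) * l i + ((k i : ℕ) : ℤ) : Fin n → ℤ) =
            m + (fun i => ((k i : ℕ) : ℤ)) := fun k => rfl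
      have hterm : ∀ k : Fin n → Fin q, F (fun i => (q : ℤ) * l i + ((k i : ℕ) : ℤ)) =
          ((g (m + fun i => ((k i : ℕ) : ℤ)) : ℝ) : ℂ) * h (fun i => ((k i : ℕ) : ℤ)) ∧
          ‖((g (m + fun i => ((k i : ℕ) : ℤ)) - g m : ℝ) : ℂ) * h (fun i => ((k i : ℕ) : ℤ))‖ ≤
            B * (D * q) * ((q * ‖ph v l‖) ^ (n + 1))⁻¹ := by
        intro k
        have hkn := ph_le v q k
        rw [← hDdef] at hkn
        have hsub : ph v ((m + fun i => ((k i : ℕ) : ℤ)) - m) = ph v (fun i => ((k i : ℕ) : ℤ)) := by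
          rw [add_sub_cancel_left]
        have hm'0 : m + (fun i => ((k i : ℕ) : ℤ)) ≠ 0 := by
          intro h0
          have h1 := ph_add v m (fun i => ((k i : ℕ) : ℤ))
          rw [h0, ph_zero] at h1
          have h2 : ph v m = - ph v (fun i => ((k i : ℕ) : ℤ)) := by
            rw [eq_neg_iff_add_eq_zero]
            exact h1.symm
          have h3 := congrArg norm h2
          rw [norm_neg, hnm] at h3
          nlinarith
        constructor
        · rw [hk k, hF0 _ hm'0]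
          congr 1
          have := hh2 (fun i => ((k i : ℕ) : ℤ)) l
          rw [← this]
          congr 1
          funext i
          simp only [hm, Pi.add_apply]
          ring
        · rw [norm_mul, Complex.norm_real, Real.norm_eq_abs]
          have hcond : A * ‖ph v ((m + fun i => ((k i : ℕ) : ℤ)) - m)‖ ≤ ‖ph v m‖ := by
            rw [hsub, hnm]
            calc A * ‖ph v (fun i => ((k i : ℕ) : ℤ))‖ ≤ A * (D * q) :=
                  mul_le_mul_of_nonneg_left hkn hA.le
              _ = q * (A * D) := by ring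
              _ ≤ q * ‖ph v l‖ := mul_le_mul_of_nonneg_left (by linarith) hq0.le
          have h1 := hg2 m _ hm0 hm'0 hcond
          rw [hsub, hnm] at h1
          calc |g (m + fun i => ((k i : ℕ) : ℤ)) - g m| * ‖h (fun i => ((k i : ℕ) : ℤ))‖
              ≤ |g (m + fun i => ((k i : ℕ) : ℤ)) - g m| :=
                mul_le_of_le_one_right (abs_nonneg _) (hh1 _)
            _ ≤ _ := h1
            _ ≤ B * (D * q) * ((q * ‖ph v l‖) ^ (n + 1))⁻¹ := by gcongr
      have hsum0 : ∑ k : Fin n → Fin q, F (fun i => (q : ℤ) * l i + ((k i : ℕ) : ℤ)) =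
          ∑ k : Fin n → Fin q, ((g (m + fun i => ((k i : ℕ) : ℤ)) - g m : ℝ) : ℂ) *
            h (fun i => ((k i : ℕ) : ℤ)) := by
        rw [Finset.sum_congr rfl fun k _ => (hterm k).1]
        have : ∑ k : Fin n → Fin q, ((g m : ℝ) : ℂ) * h (fun i => ((k i : ℕ) : ℤ)) = 0 := by
          rw [← Finset.mul_sum, hh3, mul_zero]
        rw [← sub_zero (∑ k : Fin n → Fin q, _), ← this, ← Finset.sum_sub_distrib]
        refine Finset.sum_congr rfl fun k _ => ?_
        push_cast
        ring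
      rw [hsum0]
      refine (norm_sum_le _ _).trans ((Finset.sum_le_sum fun k _ => (hterm k).2).trans ?_)
      rw [Finset.sum_const, Finset.card_univ, nsmul_eq_mul]
      simp only [Fintype.card_pi, Fintype.card_fin, Finset.prod_const, Finset.card_univ]
      apply le_of_eq
      push_cast
      rw [mul_pow]
      field_simp
      ring
    refine (Finset.sum_le_sum hl).trans ?_
    rw [← Finset.mul_sum]
    refine mul_le_mul_of_nonneg_left ?_ (by positivity)
    exact hb.sum_le_tsum _ fun _ _ => by positivity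
  -- the near part
  have hnear : ∑ l ∈ U with ¬ R ≤ ‖ph v l‖,
      ‖∑ k : Fin n → Fin q, F (fun i => (q : ℤ) * l i + ((k i : ℕ) : ℤ))‖ ≤
        B * (C1 * (1 + Real.log ((R + D) * q))) := by
    set U' := U.filter (fun l => ¬ R ≤ ‖ph v l‖) with hU'
    set P : Finset ((Fin n → ℤ) × (Fin n → Fin q)) := U' ×ˢ Finset.univ with hP
    set T : Finset (Fin n → ℤ) := P.map ⟨_, div_inj (n := n) q⟩ with hT
    calc ∑ l ∈ U', ‖∑ k : Fin n → Fin q, F (fun i => (q : ℤ) * l i + ((k i : ℕ) : ℤ))‖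
        ≤ ∑ l ∈ U', ∑ k : Fin n → Fin q, ‖F (fun i => (q : ℤ) * l i + ((k i : ℕ) : ℤ))‖ :=
          Finset.sum_le_sum fun l _ => norm_sum_le _ _
      _ = ∑ x ∈ P, ‖F (fun i => (q : ℤ) * x.1 i + ((x.2 i : ℕ) : ℤ))‖ := by
          rw [hP, Finset.sum_product]
      _ = ∑ m ∈ T, ‖F m‖ := by
          rw [hT, Finset.sum_map]
          rfl
      _ = ∑ m ∈ T with m ≠ 0, ‖F m‖ := by
          symm
          refine Finset.sum_filter_of_ne fun m _ hne h0 => hne ?_
          rw [h0, hFz, norm_zero]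
      _ ≤ ∑ m ∈ T with m ≠ 0, B * (‖ph v m‖ ^ n)⁻¹ := by
          refine Finset.sum_le_sum fun m hm => ?_
          have hm0 := (Finset.mem_filter.1 hm).2
          exact (hFle m hm0).trans (hg1 m hm0)
      _ = B * ∑ m ∈ T with m ≠ 0, (‖ph v m‖ ^ n)⁻¹ := by rw [Finset.mul_sum]
      _ ≤ B * (C1 * (1 + Real.log ((R + D) * q))) := by
          refine mul_le_mul_of_nonneg_left (ha _ _ ?_ ?_) hB.le
          · nlinarith
          · intro m hm
            obtain ⟨hmT, hm0⟩ := Finset.mem_filter.1 hm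
            refine ⟨hm1 m hm0, ?_⟩
            obtain ⟨⟨l, k⟩, hx, rfl⟩ := Finset.mem_map.1 hmT
            have hlU : ¬ R ≤ ‖ph v l‖ := (Finset.mem_filter.1 (Finset.mem_product.1 hx).1).2
            have h1 : ph v (fun i => (q : ℤ) * l i + ((k i : ℕ) : ℤ)) =
                (q : ℝ) • ph v l + ph v (fun i => ((k i : ℕ) : ℤ)) := by
              rw [← ph_mul, ← ph_add]
              rfl
            have hkn := ph_le v q k
            rw [← hDdef] at hkn
            calc ‖ph v (fun i => (q : ℤ) * l i + ((k i : ℕ) : ℤ))‖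
                ≤ ‖(q : ℝ) • ph v l‖ + ‖ph v (fun i => ((k i : ℕ) : ℤ))‖ := by
                  rw [h1]
                  exact norm_add_le _ _
              _ ≤ q * R + D * q := by
                  refine add_le_add ?_ hkn
                  rw [norm_smul, Real.norm_eq_abs, abs_of_pos hq0]
                  exact mul_le_mul_of_nonneg_left (not_le.1 hlU).le hq0.le
              _ = (R + D) * q := by ring
  have hlogm : Real.log ((R + D) * q) = Real.log (R + D) + Real.log q :=
    Real.log_mul (by linarith) hq0.ne'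
  rw [hlogm] at hnear
  have h5 : B * (C1 * (1 + (Real.log (R + D) + Real.log q))) ≤
      B * C1 * (1 + Real.log (R + D)) * (1 + Real.log q) := by
    have : B * C1 * (1 + Real.log (R + D)) * (1 + Real.log q) -
        B * (C1 * (1 + (Real.log (R + D) + Real.log q))) =
        B * C1 * (Real.log (R + D) * Real.log q) := by ring
    have h6 : 0 ≤ B * C1 * (Real.log (R + D) * Real.log q) := by positivity
    linarith
  have h7 : B * D * Z ≤ B * D * Z * (1 + Real.log q) :=
    le_mul_of_one_le_right (by positivity) (by linarith)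
  calc _ ≤ B * D * Z + B * (C1 * (1 + (Real.log (R + D) + Real.log q))) := add_le_add hfar hnear
    _ ≤ (B * D * Z + B * C1 * (1 + Real.log (R + D))) * (1 + Real.log q) := by
        rw [add_mul]
        exact add_le_add h7 h5

end Pool.Agent.Work.MP_59f3ad_nt.USA
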